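import Mathlib

set_option autoImplicit false

/-!
# Charts of the blow-up, jets and derivations
-/

namespace Pool.Agent.H375Z.Sm

open Polynomial

section Charts

variable {R : Type*} [CommRing R]

/-- First chart: `F ↦ F(a + s, b + s t, 1)` in `R[t][s]`. -/
noncomputable def T1 (a b : R) : MvPolynomial (Fin 3) R →ₐ[R] R[X][X] :=
  MvPolynomial.aeval ![C (C a) + X, C (C b) + X * C X, 1]

/-- Second chart: `F ↦ F(a + s t, b + s, 1)` in `R[t][s]`. -/
noncomputable def T2 (a b : R) : MvPolynomial (Fin 3) R →ₐ[R] R[X][X] :=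
  MvPolynomial.aeval ![C (C a) + X * C X, C (C b) + X, 1]

/-- Local equation `F(a + x, b + y, 1)` in `R[x][y]`. -/
noncomputable def Loc (a b : R) : MvPolynomial (Fin 3) R →ₐ[R] R[X][X] :=
  MvPolynomial.aeval ![C (X + C a), X + C (C b), 1]

theorem T1_C (a b c : R) : T1 a b (MvPolynomial.C c) = C (C c) := (T1 a b).commutes c
theorem T2_C (a b c : R) : T2 a b (MvPolynomial.C c) = C (C c) := (T2 a b).commutes c
theorem Loc_C (a b c : R) : Loc a b (MvPolynomial.C c) = C (C c) := (Loc a b).commutes c
theorem T1_X0 (a b : R) : T1 a b (MvPolynomial.X 0) = C (C a) + X := by simp [T1]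
theorem T1_X1 (a b : R) : T1 a b (MvPolynomial.X 1) = C (C b) + X * C X := by simp [T1]
theorem T1_X2 (a b : R) : T1 a b (MvPolynomial.X 2) = 1 := by simp [T1]
theorem T2_X0 (a b : R) : T2 a b (MvPolynomial.X 0) = C (C a) + X * C X := by simp [T2]
theorem T2_X1 (a b : R) : T2 a b (MvPolynomial.X 1) = C (C b) + X := by simp [T2]
theorem T2_X2 (a b : R) : T2 a b (MvPolynomial.X 2) = 1 := by simp [T2]
theorem Loc_X0 (a b : R) : Loc a b (MvPolynomial.X 0) = C (X + C a) := by simp [Loc]
theorem Loc_X1 (a b : R) : Loc a b (MvPolynomial.X 1) = X + C (C b) := by simp [Loc]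
theorem Loc_X2 (a b : R) : Loc a b (MvPolynomial.X 2) = 1 := by simp [Loc]

/-- `x ↦ s`, `y ↦ s t`. -/
noncomputable def ph1 (R : Type*) [CommRing R] : R[X][X] →+* R[X][X] :=
  eval₂RingHom (eval₂RingHom (C.comp C : R →+* R[X][X]) X) (X * C X)

/-- `x ↦ s t`, `y ↦ s`. -/
noncomputable def ph2 (R : Type*) [CommRing R] : R[X][X] →+* R[X][X] :=
  eval₂RingHom (eval₂RingHom (C.comp C : R →+* R[X][X]) (X * C X)) X

theorem ph1_mon (i l : ℕ) (c : R) :
    ph1 R (monomial l (monomial i c)) = monomial (i + l) (monomial l c) := by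
  simp only [ph1, coe_eval₂RingHom, eval₂_monomial, RingHom.comp_apply]
  rw [← C_mul_X_pow_eq_monomial, ← C_mul_X_pow_eq_monomial, C_mul, C_pow, mul_pow, pow_add]
  ring

theorem ph2_mon (i l : ℕ) (c : R) :
    ph2 R (monomial l (monomial i c)) = monomial (i + l) (monomial i c) := by
  simp only [ph2, coe_eval₂RingHom, eval₂_monomial, RingHom.comp_apply]
  rw [← C_mul_X_pow_eq_monomial, ← C_mul_X_pow_eq_monomial, C_mul, C_pow, mul_pow, pow_add]
  ring

theorem coeff_ph1 (g : R[X][X]) (k l : ℕ) :
    ((ph1 R g).coeff k).coeff l = if l ≤ k then (g.coeff l).coeff (k - l) else 0 := by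
  induction g using Polynomial.induction_on' with
  | add p q hp hq =>
    rw [map_add, coeff_add, coeff_add, hp, hq, coeff_add, coeff_add]
    split_ifs <;> simp
  | monomial n p =>
    induction p using Polynomial.induction_on' with
    | add p q hp hq =>
      rw [map_add, map_add, coeff_add, coeff_add, hp, hq, coeff_add, coeff_add]
      split_ifs <;> simp
    | monomial i c =>
      rw [ph1_mon]
      simp only [coeff_monomial]
      by_cases h1 : n = l
      · subst h1
        by_cases h2 : i + n = k
        · subst h2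
          simp
        · rw [if_neg h2, if_pos rfl, coeff_monomial, coeff_zero]
          split_ifs with h3 h4
          · omega
          · rfl
          · rfl
      · rw [if_neg h1]
        split_ifs <;> simp [coeff_monomial, h1]

theorem coeff_ph2 (g : R[X][X]) (k l : ℕ) :
    ((ph2 R g).coeff k).coeff l = if l ≤ k then (g.coeff (k - l)).coeff l else 0 := by
  induction g using Polynomial.induction_on' with
  | add p q hp hq =>
    rw [map_add, coeff_add, coeff_add, hp, hq, coeff_add, coeff_add]
    split_ifs <;> simp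
  | monomial n p =>
    induction p using Polynomial.induction_on' with
    | add p q hp hq =>
      rw [map_add, map_add, coeff_add, coeff_add, hp, hq, coeff_add, coeff_add]
      split_ifs <;> simp
    | monomial i c =>
      rw [ph2_mon]
      simp only [coeff_monomial]
      by_cases h2 : i + n = k
      · subst h2
        rw [if_pos rfl, coeff_monomial]
        by_cases h1 : i = l
        · subst h1
          simp
        · rw [if_neg h1]
          split_ifs with h3 h4
          · rw [coeff_monomial, if_neg h1]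
          · simp
          · rfl
      · rw [if_neg h2, coeff_zero]
        split_ifs with h3 h4
        · rw [coeff_monomial, if_neg]
          omega
        · simp
        · rfl

theorem T1_eq (a b : R) (F : MvPolynomial (Fin 3) R) : T1 a b F = ph1 R (Loc a b F) := by
  have h : (T1 a b : MvPolynomial (Fin 3) R →+* R[X][X]) =
      (ph1 R).comp (Loc a b : MvPolynomial (Fin 3) R →+* R[X][X]) := by
    refine MvPolynomial.ringHom_ext (fun c => ?_) fun j => ?_
    · simp only [RingHom.coe_coe, RingHom.comp_apply, T1_C, Loc_C]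
      simp [ph1]
    · fin_cases j
      · show T1 a b (MvPolynomial.X 0) = ph1 R (Loc a b (MvPolynomial.X 0))
        rw [T1_X0, Loc_X0]
        simp [ph1, add_comm]
      · show T1 a b (MvPolynomial.X 1) = ph1 R (Loc a b (MvPolynomial.X 1))
        rw [T1_X1, Loc_X1]
        simp [ph1, add_comm]
      · show T1 a b (MvPolynomial.X 2) = ph1 R (Loc a b (MvPolynomial.X 2))
        rw [T1_X2, Loc_X2, map_one]
  exact congrArg (fun φ : MvPolynomial (Fin 3) R →+* R[X][X] => φ F) h

theorem T2_eq (a b : R) (F : MvPolynomial (Fin 3) R) : T2 a b F = ph2 R (Loc a b F) := by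
  have h : (T2 a b : MvPolynomial (Fin 3) R →+* R[X][X]) =
      (ph2 R).comp (Loc a b : MvPolynomial (Fin 3) R →+* R[X][X]) := by
    refine MvPolynomial.ringHom_ext (fun c => ?_) fun j => ?_
    · simp only [RingHom.coe_coe, RingHom.comp_apply, T2_C, Loc_C]
      simp [ph2]
    · fin_cases j
      · show T2 a b (MvPolynomial.X 0) = ph2 R (Loc a b (MvPolynomial.X 0))
        rw [T2_X0, Loc_X0]
        simp [ph2, add_comm]
      · show T2 a b (MvPolynomial.X 1) = ph2 R (Loc a b (MvPolynomial.X 1))
        rw [T2_X1, Loc_X1]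
        simp [ph2, add_comm]
      · show T2 a b (MvPolynomial.X 2) = ph2 R (Loc a b (MvPolynomial.X 2))
        rw [T2_X2, Loc_X2, map_one]
  exact congrArg (fun φ : MvPolynomial (Fin 3) R →+* R[X][X] => φ F) h

theorem coeff_T1_of_lt (a b : R) (F : MvPolynomial (Fin 3) R) {k l : ℕ} (h : k < l) :
    ((T1 a b F).coeff k).coeff l = 0 := by
  rw [T1_eq, coeff_ph1, if_neg (by omega)]

theorem coeff_T2 (a b : R) (F : MvPolynomial (Fin 3) R) (k l : ℕ) :
    ((T2 a b F).coeff k).coeff l = if l ≤ k then ((T1 a b F).coeff k).coeff (k - l) else 0 := by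
  rw [T2_eq, coeff_ph2, T1_eq, coeff_ph1]
  by_cases h : l ≤ k
  · rw [if_pos h, if_pos h, if_pos (by omega), show k - (k - l) = l by omega]
  · rw [if_neg h, if_neg h]

theorem natDegree_T1 (a b : R) (F : MvPolynomial (Fin 3) R) (k : ℕ) :
    ((T1 a b F).coeff k).natDegree ≤ k :=
  natDegree_le_iff_coeff_eq_zero.2 fun _ h => coeff_T1_of_lt a b F h

theorem dvd_T2 {a b : R} {F : MvPolynomial (Fin 3) R} {m : ℕ} (h : X ^ m ∣ T1 a b F) :
    X ^ m ∣ T2 a b F := by
  rw [X_pow_dvd_iff] at h ⊢
  intro k hk
  ext l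
  rw [coeff_T2, h k hk]
  simp

theorem map_T1 {S : Type*} [CommRing S] (ψ : R →+* S) (a b : R) (F : MvPolynomial (Fin 3) R) :
    T1 (ψ a) (ψ b) (MvPolynomial.map ψ F) = (T1 a b F).map (mapRingHom ψ) := by
  have h : (T1 (ψ a) (ψ b) : MvPolynomial (Fin 3) S →+* S[X][X]).comp (MvPolynomial.map ψ) =
      (mapRingHom (mapRingHom ψ)).comp (T1 a b : MvPolynomial (Fin 3) R →+* R[X][X]) := by
    refine MvPolynomial.ringHom_ext (fun c => ?_) fun j => ?_
    · simp only [RingHom.coe_coe, RingHom.comp_apply, MvPolynomial.map_C, T1_C]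
      simp
    · simp only [RingHom.coe_coe, RingHom.comp_apply, MvPolynomial.map_X]
      fin_cases j
      · show T1 _ _ (MvPolynomial.X 0) = mapRingHom _ (T1 a b (MvPolynomial.X 0))
        rw [T1_X0, T1_X0]
        simp
      · show T1 _ _ (MvPolynomial.X 1) = mapRingHom _ (T1 a b (MvPolynomial.X 1))
        rw [T1_X1, T1_X1]
        simp
      · show T1 _ _ (MvPolynomial.X 2) = mapRingHom _ (T1 a b (MvPolynomial.X 2))
        rw [T1_X2, T1_X2, map_one]
  exact congrArg (fun φ : MvPolynomial (Fin 3) R →+* S[X][X] => φ F) h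

theorem coeff_map_T1 {S : Type*} [CommRing S] (ψ : R →+* S) (a b : R)
    (F : MvPolynomial (Fin 3) R) (k : ℕ) :
    (T1 (ψ a) (ψ b) (MvPolynomial.map ψ F)).coeff k = ((T1 a b F).coeff k).map ψ := by
  rw [map_T1, coeff_map, coe_mapRingHom]

theorem coeff_map_T2 {S : Type*} [CommRing S] (ψ : R →+* S) (a b : R)
    (F : MvPolynomial (Fin 3) R) (k : ℕ) :
    (T2 (ψ a) (ψ b) (MvPolynomial.map ψ F)).coeff k = ((T2 a b F).coeff k).map ψ := by
  ext l
  rw [coeff_map, coeff_T2, coeff_T2, coeff_map_T1, coeff_map]
  split_ifs <;> simp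

theorem coeff_zero_T1 (a b : R) (F : MvPolynomial (Fin 3) R) :
    (T1 a b F).coeff 0 = C (MvPolynomial.eval ![a, b, 1] F) := by
  have h : (constantCoeff : R[X][X] →+* R[X]).comp (T1 a b : MvPolynomial (Fin 3) R →+* R[X][X]) =
      (C : R →+* R[X]).comp (MvPolynomial.eval ![a, b, 1]) := by
    refine MvPolynomial.ringHom_ext (fun c => ?_) fun j => ?_
    · simp only [RingHom.coe_coe, RingHom.comp_apply, T1_C]
      simp
    · simp only [RingHom.coe_coe, RingHom.comp_apply]
      fin_cases j
      · show constantCoeff (T1 a b (MvPolynomial.X 0)) = _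
        rw [T1_X0]
        simp
      · show constantCoeff (T1 a b (MvPolynomial.X 1)) = _
        rw [T1_X1]
        simp
      · show constantCoeff (T1 a b (MvPolynomial.X 2)) = _
        rw [T1_X2]
        simp
  exact congrArg (fun φ : MvPolynomial (Fin 3) R →+* R[X] => φ F) h

end Charts

section Derivations

variable {R : Type*} [CommRing R]

/-- Derivations of a commutative ring. -/
structure Der (R : Type*) [CommRing R] where
  /-- the underlying additive map -/
  f : R →+ R
  mul : ∀ x y, f (x * y) = x * f y + y * f x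

theorem Der.one (D : Der R) : D.f 1 = 0 := by
  have h := D.mul 1 1
  simpa using h

/-- Coefficientwise action on univariate polynomials. -/
noncomputable def polyF (D : R →+ R) (p : R[X]) : R[X] := p.sum fun n a => monomial n (D a)

theorem coeff_polyF (D : R →+ R) (p : R[X]) (i : ℕ) : (polyF D p).coeff i = D (p.coeff i) := by
  rw [polyF, coeff_sum, Polynomial.sum]
  simp only [coeff_monomial]
  rw [Finset.sum_ite_eq']
  split_ifs with h
  · rfl
  · rw [notMem_support_iff.1 h, map_zero]

/-- Coefficientwise derivation of univariate polynomials. -/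
noncomputable def polyD (D : Der R) : Der R[X] where
  f := AddMonoidHom.mk' (polyF D.f) (fun p q => by
    ext i
    rw [coeff_add, coeff_polyF, coeff_polyF, coeff_polyF, coeff_add, map_add])
  mul := fun p q => by
    ext i
    show (polyF D.f (p * q)).coeff i = (p * polyF D.f q + q * polyF D.f p).coeff i
    rw [coeff_polyF, coeff_add, mul_comm q, coeff_mul, coeff_mul, coeff_mul, map_sum,
      ← Finset.sum_add_distrib]
    refine Finset.sum_congr rfl fun x _ => ?_
    rw [D.mul, coeff_polyF, coeff_polyF]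
    ring

theorem coeff_polyD (D : Der R) (p : R[X]) (i : ℕ) :
    ((polyD D).f p).coeff i = D.f (p.coeff i) := coeff_polyF D.f p i

theorem polyD_C (D : Der R) (c : R) : (polyD D).f (C c) = C (D.f c) := by
  ext i
  rw [coeff_polyD, coeff_C, coeff_C]
  split_ifs <;> simp

theorem polyD_X (D : Der R) : (polyD D).f X = 0 := by
  ext i
  rw [coeff_polyD, coeff_X]
  split_ifs <;> simp [Der.one]

/-- Coefficientwise action of a derivation on multivariate polynomials. -/
noncomputable def mvD {σ : Type*} (D : Der R) (F : MvPolynomial σ R) :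
    MvPolynomial σ R :=
  ∑ n ∈ F.support, MvPolynomial.monomial n (D.f (F.coeff n))

theorem coeff_mvD {σ : Type*} (D : Der R) (F : MvPolynomial σ R) (n : σ →₀ ℕ) :
    (mvD D F).coeff n = D.f (F.coeff n) := by
  classical
  rw [mvD, MvPolynomial.coeff_sum]
  simp only [MvPolynomial.coeff_monomial]
  rw [Finset.sum_ite_eq']
  split_ifs with h
  · rfl
  · rw [MvPolynomial.notMem_support_iff.1 h, map_zero]

theorem mvD_add {σ : Type*} (D : Der R) (F G : MvPolynomial σ R) :
    mvD D (F + G) = mvD D F + mvD D G := by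
  ext n
  rw [MvPolynomial.coeff_add, coeff_mvD, coeff_mvD, coeff_mvD, MvPolynomial.coeff_add, map_add]

theorem mvD_C {σ : Type*} (D : Der R) (c : R) :
    mvD D (MvPolynomial.C c : MvPolynomial σ R) = MvPolynomial.C (D.f c) := by
  classical
  ext n
  rw [coeff_mvD, MvPolynomial.coeff_C, MvPolynomial.coeff_C]
  split_ifs <;> simp

theorem mvD_mul_X {σ : Type*} (D : Der R) (F : MvPolynomial σ R) (j : σ) :
    mvD D (F * MvPolynomial.X j) = mvD D F * MvPolynomial.X j := by
  classical
  ext n
  rw [coeff_mvD, MvPolynomial.coeff_mul_X', MvPolynomial.coeff_mul_X', coeff_mvD]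
  split_ifs <;> simp

theorem mvD_homog {σ : Type*} (D : Der R) {F : MvPolynomial σ R} {d : ℕ}
    (hF : F.IsHomogeneous d) : (mvD D F).IsHomogeneous d := by
  intro n hn
  refine hF fun h => hn ?_
  rw [coeff_mvD, h, map_zero]

/-- The coefficientwise derivation of multivariate polynomials. -/
noncomputable def mvDer {σ : Type*} (D : Der R) : Der (MvPolynomial σ R) where
  f := AddMonoidHom.mk' (mvD D) (mvD_add D)
  mul := fun p q => by
    classical
    ext i
    show (mvD D (p * q)).coeff i = (p * mvD D q + q * mvD D p).coeff i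
    rw [coeff_mvD, MvPolynomial.coeff_add, mul_comm q, MvPolynomial.coeff_mul,
      MvPolynomial.coeff_mul, MvPolynomial.coeff_mul, map_sum, ← Finset.sum_add_distrib]
    refine Finset.sum_congr rfl fun x _ => ?_
    rw [D.mul, coeff_mvD, coeff_mvD]
    ring

/-- Partial derivatives. -/
noncomputable def pd {σ : Type*} (j : σ) : Der (MvPolynomial σ R) where
  f := (MvPolynomial.pderiv j : Derivation R (MvPolynomial σ R) (MvPolynomial σ R)).toLinearMap
  mul := fun p q => by
    show MvPolynomial.pderiv j (p * q) = p * MvPolynomial.pderiv j q + q * MvPolynomial.pderiv j p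
    rw [Derivation.leibniz, smul_eq_mul, smul_eq_mul]

theorem pd_apply {σ : Type*} (j : σ) (p : MvPolynomial σ R) :
    (pd j).f p = MvPolynomial.pderiv j p := rfl

/-- Chain rule. -/
theorem chain {σ S : Type*} [Fintype σ] [CommRing S] (e : MvPolynomial σ R →+* S)
    (D : Der R) (E : Der S)
    (h : ∀ c, E.f (e (MvPolynomial.C c)) = e (MvPolynomial.C (D.f c))) (F : MvPolynomial σ R) :
    E.f (e F) = e (mvD D F) +
      ∑ j, e (MvPolynomial.pderiv j F) * E.f (e (MvPolynomial.X j)) := by
  classical
  induction F using MvPolynomial.induction_on with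
  | C c => simp [h, mvD_C]
  | add p q hp hq =>
    rw [map_add, map_add, hp, hq, mvD_add, map_add]
    simp only [map_add, add_mul, Finset.sum_add_distrib]
    ring
  | mul_X p i hp =>
    rw [map_mul, E.mul, hp, mvD_mul_X, map_mul]
    simp only [Derivation.leibniz, MvPolynomial.pderiv_X, smul_eq_mul, map_add, map_mul, add_mul,
      Finset.sum_add_distrib]
    have h1 : ∑ j, e p * e (Pi.single (M := fun _ => MvPolynomial σ R) j 1 i) *
        E.f (e (MvPolynomial.X j)) = e p * E.f (e (MvPolynomial.X i)) := by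
      rw [Finset.sum_eq_single i]
      · simp
      · intro j _ hj
        rw [Pi.single_eq_of_ne' hj]
        simp
      · simp
    rw [h1, mul_add, Finset.mul_sum]
    simp only [mul_assoc]
    ring

theorem chain_eval {σ : Type*} [Fintype σ] (D : Der R) (q : σ → R)
    (F : MvPolynomial σ R) :
    D.f (MvPolynomial.eval q F) = MvPolynomial.eval q (mvD D F) +
      ∑ j, MvPolynomial.eval q (MvPolynomial.pderiv j F) * D.f (q j) := by
  have h := chain (MvPolynomial.eval q) D D (fun c => by simp) F
  simpa using h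

theorem coeff_succ_T1 (a b : R) (F : MvPolynomial (Fin 3) R) (k : ℕ) :
    derivative ((T1 a b F).coeff (k + 1)) = (T1 a b (MvPolynomial.pderiv 1 F)).coeff k := by
  let D0 : Der R[X] := ⟨(derivative (R := R)).toAddMonoidHom, fun p q => by
    show derivative (p * q) = p * derivative q + q * derivative p
    rw [derivative_mul]
    ring⟩
  let Z : Der R := ⟨0, fun p q => by simp⟩
  have hD0 : ∀ p, D0.f p = derivative p := fun p => rfl
  have hZ : ∀ p, Z.f p = 0 := fun p => rfl
  have h := chain (T1 a b : MvPolynomial (Fin 3) R →+* R[X][X]) Z (polyD D0) (fun c => by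
    simp only [RingHom.coe_coe, T1_C, polyD_C, hD0, hZ]
    simp) F
  have h0 : mvD Z F = 0 := by
    ext n
    rw [coeff_mvD, hZ]
    simp
  simp only [RingHom.coe_coe, Fin.sum_univ_three, T1_X0, T1_X1, T1_X2, h0, map_zero, map_add,
    Der.mul, polyD_C, polyD_X, hD0, derivative_C, derivative_X,
    Der.one, mul_zero, add_zero, zero_add, map_one, mul_one] at h
  rw [← hD0, ← coeff_polyD, h, coeff_mul_X]

theorem coeff_T1_mvD (D : Der R) {a b : R} (ha : D.f a = 0)
    (F : MvPolynomial (Fin 3) R) (k : ℕ) :
    (polyD D).f ((T1 a b F).coeff k) = (T1 a b (mvD D F)).coeff k +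
      (T1 a b (MvPolynomial.pderiv 1 F)).coeff k * C (D.f b) := by
  have h := chain (T1 a b : MvPolynomial (Fin 3) R →+* R[X][X]) D (polyD (polyD D)) (fun c => by
    simp only [RingHom.coe_coe, T1_C, polyD_C]) F
  simp only [RingHom.coe_coe, Fin.sum_univ_three, T1_X0, T1_X1, T1_X2, map_zero, map_add,
    Der.mul, polyD_C, polyD_X, ha, Der.one, mul_zero, add_zero, zero_add] at h
  rw [← coeff_polyD, h, coeff_add, coeff_mul_C]

/-- Extension of derivations along formally etale maps. -/
theorem exists_extend {A Ω : Type*} [CommRing A] [CommRing Ω] [Algebra A Ω]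
    [Algebra.FormallyEtale A Ω] (D : Der A) :
    ∃ E : Der Ω, ∀ x, E.f (algebraMap A Ω x) = algebraMap A Ω (D.f x) := by
  let D' : Derivation ℤ A A := Derivation.mk' D.f.toIntLinearMap (fun x y => by
    show D.f (x * y) = x • D.f y + y • D.f x
    rw [D.mul, smul_eq_mul, smul_eq_mul])
  let l := (KaehlerDifferential.isBaseChange_of_formallyEtale ℤ A Ω).lift
    (((Algebra.linearMap A Ω).compDer D').liftKaehlerDifferential)
  let E' : Derivation ℤ Ω Ω := l.compDer (KaehlerDifferential.D ℤ Ω)
  refine ⟨⟨E'.toLinearMap.toAddMonoidHom, fun x y => ?_⟩, fun x => ?_⟩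
  · show E' (x * y) = x * E' y + y * E' x
    rw [Derivation.leibniz, smul_eq_mul, smul_eq_mul]
  · show l (KaehlerDifferential.D ℤ Ω (algebraMap A Ω x)) = _
    rw [← KaehlerDifferential.map_D ℤ ℤ A Ω, IsBaseChange.lift_eq]
    simp only [Derivation.liftKaehlerDifferential_comp_D]
    rfl

end Derivations

end Pool.Agent.H375Z.Sm
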