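import Mathlib
import Pool.Agent.H375Z.Sm.Basic
import Pool.Agent.H932R3.Finals

set_option autoImplicit false

/-!
# Jets at the points and independence of conditions
-/

namespace Pool.Agent.H375Z.Sm

open Polynomial

variable {r : ℕ}

/-- Index set of the conditions. -/
abbrev Ix (w : Fin r → ℕ) : Type := Σ i : Fin r, Σ k : Fin (w i), Fin (k + 1)

theorem card_Ix (w : Fin r → ℕ) : Fintype.card (Ix w) = ∑ i, (w i + 1).choose 2 := by
  rw [Fintype.card_sigma]
  refine Finset.sum_congr rfl fun i _ => ?_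
  rw [Fintype.card_sigma]
  simp only [Fintype.card_fin]
  rw [Fin.sum_univ_eq_sum_range (fun k => k + 1)]
  induction w i with
  | zero => simp
  | succ n ih =>
    rw [Finset.sum_range_succ, ih, Nat.choose_succ_succ' (n + 1) 1, Nat.choose_one_right]
    ring

/-- One more at the point `i`. -/
def up (w : Fin r → ℕ) (i : Fin r) : Fin r → ℕ := fun j => if j = i then w j + 1 else w j

section Ring

variable {R : Type*} [CommRing R]

/-- The jets of a form at the points. -/
noncomputable def jet (a b : Fin r → R) (w : Fin r → ℕ) :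
    MvPolynomial (Fin 3) R →ₗ[R] (Ix w → R) where
  toFun F := fun e => ((T1 (a e.1) (b e.1) F).coeff e.2.1).coeff e.2.2
  map_add' F G := by
    funext e
    simp
  map_smul' c F := by
    funext e
    simp

theorem jet_apply (a b : Fin r → R) (w : Fin r → ℕ) (F : MvPolynomial (Fin 3) R) (e : Ix w) :
    jet a b w F e = ((T1 (a e.1) (b e.1) F).coeff e.2.1).coeff e.2.2 := rfl

theorem jet_eq_zero_iff {a b : Fin r → R} {w : Fin r → ℕ} {F : MvPolynomial (Fin 3) R} :
    jet a b w F = 0 ↔ ∀ i, X ^ w i ∣ T1 (a i) (b i) F := by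
  constructor
  · intro h i
    rw [X_pow_dvd_iff]
    intro k hk
    ext l
    rw [coeff_zero]
    by_cases hl : l ≤ k
    · exact congrFun h ⟨i, ⟨k, hk⟩, ⟨l, Nat.lt_succ_of_le hl⟩⟩
    · exact coeff_T1_of_lt _ _ _ (by omega)
  · intro h
    funext e
    rw [jet_apply, X_pow_dvd_iff.1 (h e.1) _ e.2.1.2]
    simp

theorem jet_map {S : Type*} [CommRing S] (ψ : R →+* S) (a b : Fin r → R) (w : Fin r → ℕ)
    (F : MvPolynomial (Fin 3) R) (e : Ix w) :
    jet (fun i => ψ (a i)) (fun i => ψ (b i)) w (MvPolynomial.map ψ F) e = ψ (jet a b w F e) := by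
  rw [jet_apply, jet_apply, coeff_map_T1, coeff_map]

/-- Forms of degree `d` with the assigned multiplicities. -/
def Mem (a b : Fin r → R) (w : Fin r → ℕ) (d : ℕ) (F : MvPolynomial (Fin 3) R) : Prop :=
  F.IsHomogeneous d ∧ ∀ i, X ^ w i ∣ T1 (a i) (b i) F

/-- The conditions are independent. -/
def Surj (a b : Fin r → R) (w : Fin r → ℕ) (d : ℕ) : Prop :=
  ∀ y : Ix w → R, ∃ F : MvPolynomial (Fin 3) R, F.IsHomogeneous d ∧ jet a b w F = y

theorem Mem.map {S : Type*} [CommRing S] (ψ : R →+* S) {a b : Fin r → R} {w : Fin r → ℕ} {d : ℕ}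
    {F : MvPolynomial (Fin 3) R} (h : Mem a b w d F) :
    Mem (fun i => ψ (a i)) (fun i => ψ (b i)) w d (MvPolynomial.map ψ F) := by
  refine ⟨h.1.map ψ, fun i => ?_⟩
  rw [map_T1]
  have := Polynomial.map_dvd (mapRingHom ψ) (h.2 i)
  simpa using this

theorem Surj.map {S : Type*} [CommRing S] (ψ : R →+* S) {a b : Fin r → R} {w : Fin r → ℕ} {d : ℕ}
    (h : Surj a b w d) : Surj (fun i => ψ (a i)) (fun i => ψ (b i)) w d := by
  classical
  intro y
  choose H hH hH' using fun e : Ix w => h (Pi.single e 1)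
  refine ⟨∑ e, y e • MvPolynomial.map ψ (H e), ?_, ?_⟩
  · refine MvPolynomial.IsHomogeneous.sum _ _ _ fun e _ => ?_
    rw [MvPolynomial.smul_eq_C_mul]
    exact ((hH e).map ψ).C_mul _
  · funext e'
    rw [map_sum, Finset.sum_apply]
    simp only [map_smul, Pi.smul_apply, jet_map, hH', smul_eq_mul]
    rw [Finset.sum_eq_single e']
    · simp
    · intro e _ he
      rw [Pi.single_eq_of_ne' he]
      simp
    · simp

theorem Surj.lead {a b : Fin r → R} {w : Fin r → ℕ} {d : ℕ} {i : Fin r}
    (h : Surj a b (up w i) d) (g : R[X]) (hg : g.natDegree ≤ w i) :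
    ∃ F, Mem a b w d F ∧ (T1 (a i) (b i) F).coeff (w i) = g := by
  classical
  obtain ⟨F, hF, hF'⟩ := h fun e => if e.1 = i ∧ (e.2.1 : ℕ) = w i then g.coeff e.2.2 else 0
  refine ⟨F, ⟨hF, fun j => ?_⟩, ?_⟩
  · rw [X_pow_dvd_iff]
    intro k hk
    ext l
    rw [coeff_zero]
    by_cases hl : l ≤ k
    · have hk' : k < up w i j := by
        unfold up
        split_ifs <;> omega
      have h1 := congrFun hF' ⟨j, ⟨k, hk'⟩, ⟨l, Nat.lt_succ_of_le hl⟩⟩
      rw [jet_apply, if_neg] at h1
      · exact h1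
      · rintro ⟨h2, h3⟩
        simp only at h2 h3
        subst h2
        omega
    · exact coeff_T1_of_lt _ _ _ (by omega)
  · ext l
    by_cases hl : l ≤ w i
    · have hk' : w i < up w i i := by
        unfold up
        simp
      have h1 := congrFun hF' ⟨i, ⟨w i, hk'⟩, ⟨l, Nat.lt_succ_of_le hl⟩⟩
      rw [jet_apply, if_pos ⟨rfl, rfl⟩] at h1
      exact h1
    · rw [coeff_T1_of_lt _ _ _ (by omega), coeff_eq_zero_of_natDegree_lt (by omega)]

end Ring

section Field

variable {K : Type*} [Field K]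

theorem dvd_of_mul {a b : K} {G H : MvPolynomial (Fin 3) K} {m : ℕ}
    (hG : MvPolynomial.eval ![a, b, 1] G ≠ 0) (h : X ^ m ∣ T1 a b (G * H)) :
    X ^ m ∣ T1 a b H := by
  rw [map_mul] at h
  refine Prime.pow_dvd_of_dvd_mul_left prime_X m ?_ h
  rw [X_dvd_iff, coeff_zero_T1, C_eq_zero]
  exact hG

instance finite_forms (d : ℕ) : Module.Finite K (MvPolynomial.homogeneousSubmodule (Fin 3) K d) :=
  Module.Finite.iff_fg.2 (MvPolynomial.homogeneousSubmodule_fg _ _ d)

/-- No base point outside the assigned points one degree above independence. -/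
theorem Surj.exists_ne [Infinite K] {a b : Fin r → K} {w : Fin r → ℕ} {d : ℕ}
    (h : Surj a b w d) {q : Fin 3 → K} (hq : q ≠ 0) (hq' : ∀ (i : Fin r) (t : K), q ≠ t • ![a i, b i, 1]) :
    ∃ G, Mem a b w (d + 1) G ∧ MvPolynomial.eval q G ≠ 0 := by
  classical
  obtain ⟨t, ht⟩ := Infinite.exists_notMem_finset
    (Finset.univ.image fun i => -(q 2 * b i - q 1) / (q 0 - q 2 * a i))
  let ℓ : MvPolynomial (Fin 3) K := MvPolynomial.C (-(q 2 * t)) * MvPolynomial.X 0 +
    MvPolynomial.C (q 2) * MvPolynomial.X 1 + MvPolynomial.C (q 0 * t - q 1) * MvPolynomial.X 2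
  have hℓ : ℓ.IsHomogeneous 1 :=
    ((MvPolynomial.isHomogeneous_C_mul_X _ _).add (MvPolynomial.isHomogeneous_C_mul_X _ _)).add
      (MvPolynomial.isHomogeneous_C_mul_X _ _)
  have hℓq : MvPolynomial.eval q ℓ = 0 := by
    simp only [ℓ, map_add, map_mul, MvPolynomial.eval_C, MvPolynomial.eval_X]
    ring
  have hℓp : ∀ i, MvPolynomial.eval ![a i, b i, 1] ℓ ≠ 0 := by
    intro i h0
    have h1 : (q 2 * b i - q 1) + t * (q 0 - q 2 * a i) = 0 := by
      rw [← h0]
      simp only [ℓ, map_add, map_mul, MvPolynomial.eval_C, MvPolynomial.eval_X]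
      simp
      ring
    by_cases h2 : q 0 - q 2 * a i = 0
    · rw [h2, mul_zero, add_zero] at h1
      refine hq' i (q 2) ?_
      funext j
      fin_cases j
      · simp
        linear_combination h2
      · simp
        linear_combination -h1
      · simp
    · apply ht
      rw [Finset.mem_image]
      refine ⟨i, Finset.mem_univ _, ?_⟩
      rw [div_eq_iff h2]
      linear_combination -h1
  obtain ⟨j, hj⟩ : ∃ j, q j ≠ 0 := by
    by_contra h0
    push Not at h0
    exact hq (funext h0)
  let V := MvPolynomial.homogeneousSubmodule (Fin 3) K d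
  let f : V →ₗ[K] (Ix w → K) := (jet a b w).comp V.subtype
  let g : V →ₗ[K] (Ix w → K) := (jet a b w).comp ((LinearMap.mulLeft K ℓ).comp V.subtype)
  have hker : LinearMap.ker f = LinearMap.ker g := by
    ext H
    rw [LinearMap.mem_ker, LinearMap.mem_ker]
    show jet a b w H.1 = 0 ↔ jet a b w (ℓ * H.1) = 0
    rw [jet_eq_zero_iff, jet_eq_zero_iff]
    refine forall_congr' fun i => ⟨fun h1 => ?_, dvd_of_mul (hℓp i)⟩
    rw [map_mul]
    exact h1.mul_left _
  have hf : LinearMap.range f = ⊤ := by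
    rw [LinearMap.range_eq_top]
    intro y
    obtain ⟨F, hF, hF'⟩ := h y
    exact ⟨⟨F, hF⟩, hF'⟩
  have hg : LinearMap.range g = ⊤ := by
    apply Submodule.eq_top_of_finrank_eq
    have h1 := LinearMap.finrank_range_add_finrank_ker f
    have h2 := LinearMap.finrank_range_add_finrank_ker g
    rw [hf, finrank_top, hker] at h1
    omega
  obtain ⟨H, hH⟩ := LinearMap.range_eq_top.1 hg (jet a b w (MvPolynomial.X j ^ (d + 1)))
  refine ⟨MvPolynomial.X j ^ (d + 1) - ℓ * H.1, ⟨?_, ?_⟩, ?_⟩
  · refine (MvPolynomial.isHomogeneous_X_pow j (d + 1)).sub ?_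
    rw [add_comm]
    exact hℓ.mul H.2
  · rw [← jet_eq_zero_iff, map_sub, ← hH]
    exact sub_self _
  · rw [map_sub, map_mul, hℓq, zero_mul, sub_zero, map_pow, MvPolynomial.eval_X]
    exact pow_ne_zero _ hj

theorem mem_ideal_iff {a b : K} {m d : ℕ} {F : MvPolynomial (Fin 3) K} (hF : F.IsHomogeneous d) :
    F ∈ (Ideal.span ({MvPolynomial.X 0 - MvPolynomial.C a * MvPolynomial.X 2,
      MvPolynomial.X 1 - MvPolynomial.C b * MvPolynomial.X 2} :
        Set (MvPolynomial (Fin 3) K))) ^ m ↔ X ^ m ∣ T1 a b F := by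
  have h1 := H932R2.mem_ptIdeal_iff (a := a) (b := b) (m := m) (d := d) (F := F) hF
  rw [H932R2.mem_cIdeal_iff] at h1
  have h2 : H932R2.sh a (C b) (H932R2.deh K F) = Loc a b F := by
    have h : (H932R2.sh a (C b)).comp (H932R2.deh K : MvPolynomial (Fin 3) K →+* K[X][X]) =
        (Loc a b : MvPolynomial (Fin 3) K →+* K[X][X]) := by
      refine MvPolynomial.ringHom_ext (fun c => ?_) fun j => ?_
      · have h5 : H932R2.deh K (MvPolynomial.C c) = C (C c) := (H932R2.deh K).commutes c
        simp only [RingHom.coe_coe, RingHom.comp_apply, Loc_C, h5, H932R2.sh_C, C_comp]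
      · simp only [RingHom.coe_coe, RingHom.comp_apply]
        fin_cases j
        · show H932R2.sh a (C b) (H932R2.deh K (MvPolynomial.X 0)) = Loc a b (MvPolynomial.X 0)
          rw [H932R2.deh_X0, H932R2.sh_C, Loc_X0, X_comp]
        · show H932R2.sh a (C b) (H932R2.deh K (MvPolynomial.X 1)) = Loc a b (MvPolynomial.X 1)
          rw [H932R2.deh_X1, H932R2.sh_X, Loc_X1, C_comp]
        · show H932R2.sh a (C b) (H932R2.deh K (MvPolynomial.X 2)) = Loc a b (MvPolynomial.X 2)
          rw [H932R2.deh_X2, map_one, Loc_X2]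
    exact congrArg (fun φ : MvPolynomial (Fin 3) K →+* K[X][X] => φ F) h
  rw [h2] at h1
  refine h1.trans ?_
  rw [X_pow_dvd_iff]
  constructor
  · intro h k hk
    ext l
    rw [T1_eq, coeff_ph1, coeff_zero]
    split_ifs with hl
    · exact h l (by omega) _ (by omega)
    · rfl
  · intro h l hl i hi
    have h3 := congrArg (fun p : K[X] => p.coeff l) (h (i + l) (by omega))
    simp only [T1_eq, coeff_ph1, coeff_zero] at h3
    rw [if_pos (by omega), Nat.add_sub_cancel] at h3
    exact h3

theorem le_finrank_forms (d : ℕ) :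
    (d + 2).choose 2 ≤ Module.finrank K (MvPolynomial.homogeneousSubmodule (Fin 3) K d) := by
  classical
  let s := (Finset.univ : Finset (Fin 3)).finsuppAntidiag d
  have hs : s.card = (d + 2).choose 2 := by
    rw [Finset.card_finsuppAntidiag_nat_eq_choose, Finset.card_univ, Fintype.card_fin,
      show 3 + d - 1 = d + 2 by omega, Nat.choose_symm_add]
  let v : s → MvPolynomial.homogeneousSubmodule (Fin 3) K d := fun n =>
    ⟨MvPolynomial.monomial n.1 1, MvPolynomial.isHomogeneous_monomial _ (by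
      have := (Finset.mem_finsuppAntidiag.1 n.2).1
      rw [Finsupp.degree_eq_sum]
      exact this)⟩
  have hv : LinearIndependent K v := by
    refine LinearIndependent.of_comp (Submodule.subtype _) ?_
    have h1 := (MvPolynomial.basisMonomials (Fin 3) K).linearIndependent.comp
      (fun n : s => n.1) Subtype.val_injective
    have h2 : (⇑(MvPolynomial.homogeneousSubmodule (Fin 3) K d).subtype ∘ v) =
        (⇑(MvPolynomial.basisMonomials (Fin 3) K) ∘ fun n : s => n.1) := by
      funext n
      simp [v]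
    rw [h2]
    exact h1
  have := hv.fintype_card_le_finrank
  rwa [Fintype.card_coe, hs] at this

theorem surj_of_expDim {w : Fin r → ℕ} {P : Fin r → Fin 2 → K} {d : ℕ}
    (h : H932R3.ExpDim K w P d) (hd : ∑ i, (w i + 1).choose 2 ≤ (d + 2).choose 2) :
    Surj (fun i => P i 0) (fun i => P i 1) w d := by
  let V := MvPolynomial.homogeneousSubmodule (Fin 3) K d
  let f : V →ₗ[K] (Ix w → K) := (jet (fun i => P i 0) (fun i => P i 1) w).comp V.subtype
  have h1 := LinearMap.finrank_range_add_finrank_ker f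
  have h2 : Module.finrank K (LinearMap.ker f) =
      (d + 2).choose 2 - ∑ i, (w i + 1).choose 2 := by
    have he : Submodule.map V.subtype (LinearMap.ker f) =
        MvPolynomial.homogeneousSubmodule (Fin 3) K d ⊓ Submodule.restrictScalars K
          (⨅ i : Fin r, (Ideal.span
            ({MvPolynomial.X 0 - MvPolynomial.C (P i 0) * MvPolynomial.X 2,
              MvPolynomial.X 1 - MvPolynomial.C (P i 1) * MvPolynomial.X 2} :
              Set (MvPolynomial (Fin 3) K))) ^ (w i)) := by
      ext F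
      rw [Submodule.mem_map, Submodule.mem_inf, Submodule.restrictScalars_mem, Ideal.mem_iInf]
      constructor
      · rintro ⟨G, hG, rfl⟩
        rw [LinearMap.mem_ker] at hG
        have hG' : jet (fun i => P i 0) (fun i => P i 1) w G.1 = 0 := hG
        have hG2 : G.1.IsHomogeneous d := G.2
        exact ⟨G.2, fun i => (mem_ideal_iff hG2).2 (jet_eq_zero_iff.1 hG' i)⟩
      · rintro ⟨h3, h4⟩
        have h3' : F.IsHomogeneous d := h3
        have h5 : jet (fun i => P i 0) (fun i => P i 1) w F = 0 :=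
          jet_eq_zero_iff.2 fun i => (mem_ideal_iff h3').1 (h4 i)
        exact ⟨⟨F, h3⟩, LinearMap.mem_ker.2 h5, rfl⟩
    rw [← Submodule.finrank_map_subtype_eq, he]
    exact h
  have h3 := le_finrank_forms (K := K) d
  have h4 : Module.finrank K (Ix w → K) = ∑ i, (w i + 1).choose 2 := by
    rw [Module.finrank_fintype_fun_eq_card, card_Ix]
  have h5 : LinearMap.range f = ⊤ := by
    apply Submodule.eq_top_of_finrank_eq
    have h6 := Submodule.finrank_le (LinearMap.range f)
    change _ + _ = Module.finrank K (MvPolynomial.homogeneousSubmodule (Fin 3) K d) at h1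
    omega
  intro y
  obtain ⟨F, hF⟩ := LinearMap.range_eq_top.1 h5 y
  exact ⟨F.1, F.2, hF⟩

end Field

end Pool.Agent.H375Z.Sm
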