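import Mathlib
import Pool.Agent.H375Z.Sm.Jets

set_option autoImplicit false

/-!
# The generic member is smooth away from the assigned points
-/

namespace Pool.Agent.H375Z.Sm

open Polynomial

variable {r : ℕ}

section Fixed

variable {K : Type*} [Field K]

theorem eval_ne_zero_of_dvd {a b : Fin r → K} {w : Fin r → ℕ} {d : ℕ} {i : Fin r}
    (hS : Surj a b (up w i) d) {G : MvPolynomial (Fin 3) K}
    (hG : ∀ F, Mem a b w d F → G ∣ F) : MvPolynomial.eval ![a i, b i, 1] G ≠ 0 := by
  intro h0
  have key : ∀ g : K[X], g ≠ 0 → g.natDegree ≤ w i → ∃ (n : ℕ) (h : K[X]), h.natDegree ≤ n ∧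
      n < w i ∧ g = (T1 (a i) (b i) G).trailingCoeff * h := by
    intro g hg0 hg
    obtain ⟨F, hF, hF'⟩ := hS.lead g hg
    obtain ⟨H, rfl⟩ := hG F hF
    have h1 := X_pow_dvd_iff.1 (hF.2 i)
    have hne : T1 (a i) (b i) (G * H) ≠ 0 := by
      intro h2
      rw [h2, coeff_zero] at hF'
      exact hg0 hF'.symm
    have h2 : (T1 (a i) (b i) (G * H)).natTrailingDegree = w i := by
      refine le_antisymm (natTrailingDegree_le_of_ne_zero (by rw [hF']; exact hg0)) ?_
      exact le_natTrailingDegree hne h1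
    have h3 : (T1 (a i) (b i) (G * H)).trailingCoeff = g := by
      rw [trailingCoeff, h2, hF']
    rw [map_mul] at hne h2 h3
    have hG0 := left_ne_zero_of_mul hne
    have hH0 := right_ne_zero_of_mul hne
    rw [natTrailingDegree_mul hG0 hH0] at h2
    rw [trailingCoeff_mul] at h3
    have h4 : (T1 (a i) (b i) G).natTrailingDegree ≠ 0 := by
      intro h5
      rw [natTrailingDegree_eq_zero] at h5
      rcases h5 with h5 | h5
      · exact hG0 h5
      · apply h5
        rw [coeff_zero_T1, h0, C_0]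
    exact ⟨_, (T1 (a i) (b i) H).trailingCoeff, natDegree_T1 _ _ _ _, by omega, h3.symm⟩
  obtain ⟨n, h, -, -, h1⟩ := key 1 one_ne_zero (by simp)
  obtain ⟨n', h', h2, h3, h4⟩ := key (X ^ w i) (pow_ne_zero _ X_ne_zero) (by simp)
  have h5 : (T1 (a i) (b i) G).trailingCoeff.natDegree = 0 :=
    natDegree_eq_zero_of_isUnit (IsUnit.of_mul_eq_one h h1.symm)
  have h6 := natDegree_mul_le (p := (T1 (a i) (b i) G).trailingCoeff) (q := h')
  rw [← h4, natDegree_X_pow] at h6
  omega

theorem exists_factor {F G : MvPolynomial (Fin 3) K} {d e : ℕ} (hF : F.IsHomogeneous d)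
    (hG : G.IsHomogeneous e) (h : G ∣ F) (j : Fin 3) :
    ∃ H, F = G * H ∧ (MvPolynomial.X j ^ e * H).IsHomogeneous d := by
  classical
  obtain ⟨H, rfl⟩ := h
  refine ⟨∑ i ∈ (Finset.range (H.totalDegree + 1)).filter (fun i => d = e + i),
    MvPolynomial.homogeneousComponent i H, ?_, ?_⟩
  · conv_lhs => rw [← MvPolynomial.homogeneousComponent_eq_self hF,
      ← MvPolynomial.sum_homogeneousComponent H]
    rw [Finset.mul_sum, map_sum, Finset.mul_sum, Finset.sum_filter]
    refine Finset.sum_congr rfl fun i _ => ?_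
    exact MvPolynomial.homogeneousComponent_of_mem
      (hG.mul (MvPolynomial.homogeneousComponent_isHomogeneous i H))
  · rw [Finset.mul_sum]
    refine MvPolynomial.IsHomogeneous.sum _ _ _ fun i hi => ?_
    rw [(Finset.mem_filter.1 hi).2]
    exact (MvPolynomial.isHomogeneous_X_pow j e).mul
      (MvPolynomial.homogeneousComponent_isHomogeneous i H)

theorem no_fixed {a b : Fin r → K} {w : Fin r → ℕ} {d : ℕ} (i0 : Fin r)
    (hS : ∀ i, Surj a b (up w i) d) {G : MvPolynomial (Fin 3) K} {e : ℕ} (hp : Prime G)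
    (hG : G.IsHomogeneous e) {j : Fin 3} (hj : ¬ G ∣ MvPolynomial.X j) :
    ¬ ∀ F, Mem a b w d F → G ∣ F := by
  intro h
  have h1 : ∀ n, ∀ F, Mem a b w d F → G ^ n ∣ F := by
    intro n
    induction n with
    | zero => intro F _; simp
    | succ n ih =>
      intro F hF
      obtain ⟨H, rfl, hH⟩ := exists_factor hF.1 hG (h F hF) j
      have h2 : Mem a b w d (MvPolynomial.X j ^ e * H) := by
        refine ⟨hH, fun i => ?_⟩
        rw [map_mul]
        exact (dvd_of_mul (eval_ne_zero_of_dvd (hS i) h) (hF.2 i)).mul_left _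
      have h3 := Prime.pow_dvd_of_dvd_mul_left hp n (fun h4 => hj (hp.dvd_of_dvd_pow h4))
        (ih _ h2)
      rw [pow_succ']
      exact mul_dvd_mul_left _ h3
  obtain ⟨F, hF, hF'⟩ := (hS i0).lead 1 (by simp)
  have hF0 : F ≠ 0 := by
    rintro rfl
    simp at hF'
  obtain ⟨n, hn⟩ := FiniteMultiplicity.of_not_isUnit hp.not_isUnit hF0
  exact hn (h1 _ F hF)

theorem integral_of_base {L : Type*} [Field L] [Algebra K L] {a b : Fin r → K} {w : Fin r → ℕ}
    {d : ℕ} (i0 : Fin r) (hS : ∀ i, Surj a b (up w i) d) {q : Fin 3 → L} {j : Fin 3}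
    (hj : q j = 1) (hq : ∀ F, Mem a b w d F → MvPolynomial.aeval q F = 0) (l : Fin 3) :
    IsIntegral K (q l) := by
  classical
  let ev : MvPolynomial (Fin 3) K →ₐ[K] L[X] := MvPolynomial.aeval fun l => X * C (q l)
  have hev : ∀ (F : MvPolynomial (Fin 3) K) (n : ℕ), F.IsHomogeneous n →
      ev F = X ^ n * C (MvPolynomial.aeval q F) := by
    intro F n hF
    have h1 := H932R3.aeval_mul_homog (A := L[X]) hF X (fun l => C (q l))
    have h2 := MvPolynomial.comp_aeval_apply (f := q) (Polynomial.CAlgHom (R := K) (A := L)) F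
    rw [show ev F = _ from h1]
    congr 1
    exact h2.symm
  let Ph : Ideal (MvPolynomial (Fin 3) K) := RingHom.ker ev
  let P : Ideal (MvPolynomial (Fin 3) K) := RingHom.ker (MvPolynomial.aeval (R := K) q)
  have hPh : Ph.IsPrime := RingHom.ker_isPrime _
  have hP : P.IsPrime := RingHom.ker_isPrime _
  have hmem : ∀ F, Mem a b w d F → F ∈ Ph := by
    intro F hF
    show ev F = 0
    rw [hev F d hF.1, hq F hF, C_0, mul_zero]
  have hle : Ph ≤ P := by
    intro F hF
    have h1 : ev F = 0 := hF
    have h2 := MvPolynomial.comp_aeval_apply (f := fun l => (X * C (q l) : L[X]))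
      ((Polynomial.aeval (R := L) (1 : L)).restrictScalars K) F
    show MvPolynomial.aeval q F = 0
    have h3 : (fun i => ((Polynomial.aeval (R := L) (1 : L)).restrictScalars K)
        (X * C (q i) : L[X])) = q := by
      funext i
      simp
    rw [h3] at h2
    rw [← h2]
    show ((Polynomial.aeval (R := L) (1 : L)).restrictScalars K) (ev F) = 0
    rw [h1, map_zero]
  have hXj : ev (MvPolynomial.X j) = X := by
    simp [ev, hj]
  have hlt : Ph < P := by
    refine lt_of_le_of_ne hle fun h => ?_
    have h1 : MvPolynomial.X j - 1 ∈ P := by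
      show MvPolynomial.aeval q (MvPolynomial.X j - 1 : MvPolynomial (Fin 3) K) = 0
      simp [hj]
    rw [← h] at h1
    have h2 : ev (MvPolynomial.X j - 1) = 0 := h1
    rw [map_sub, hXj, map_one] at h2
    exact X_sub_C_ne_zero (1 : L) h2
  obtain ⟨F0, hF0, hF0'⟩ := (hS i0).lead 1 (by simp)
  have hF00 : F0 ≠ 0 := by
    rintro rfl
    simp at hF0'
  have hbot : Ph ≠ ⊥ := by
    intro h
    have := hmem F0 hF0
    rw [h, Ideal.mem_bot] at this
    exact hF00 this
  obtain ⟨G, hG, hp⟩ := hPh.exists_mem_prime_of_ne_bot hbot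
  have hGle : Ideal.span {G} ≤ Ph := (Ideal.span_singleton_le_iff_mem _).2 hG
  have hGlt : Ideal.span {G} < Ph := by
    refine lt_of_le_of_ne hGle fun h => ?_
    have hdvd : ∀ F ∈ Ph, G ∣ F := by
      intro F hF
      rw [← h] at hF
      exact Ideal.mem_span_singleton.1 hF
    have hcomp : ∀ n < G.totalDegree, MvPolynomial.homogeneousComponent n G = 0 := by
      intro n hn
      by_contra h0
      have h1 : ev G = 0 := hG
      rw [← MvPolynomial.sum_homogeneousComponent G, map_sum] at h1
      have h2 := congrArg (fun p : L[X] => p.coeff n) h1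
      simp only [finsetSum_coeff, coeff_zero] at h2
      rw [Finset.sum_eq_single n] at h2
      · rw [hev _ n (MvPolynomial.homogeneousComponent_isHomogeneous n G), coeff_mul_C,
          coeff_X_pow, if_pos rfl, one_mul] at h2
        have h3 : MvPolynomial.homogeneousComponent n G ∈ Ph := by
          show ev _ = 0
          rw [hev _ n (MvPolynomial.homogeneousComponent_isHomogeneous n G), h2, C_0, mul_zero]
        obtain ⟨H, hH⟩ := hdvd _ h3
        have hH0 : H ≠ 0 := by
          rintro rfl
          exact h0 (by rw [hH, mul_zero])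
        have h4 := (MvPolynomial.homogeneousComponent_isHomogeneous n G).totalDegree h0
        rw [hH, MvPolynomial.totalDegree_mul_of_isDomain hp.ne_zero hH0] at h4
        omega
      · intro i _ hi
        rw [hev _ i (MvPolynomial.homogeneousComponent_isHomogeneous i G), coeff_mul_C,
          coeff_X_pow, if_neg (Ne.symm hi), zero_mul]
      · intro hn'
        exact absurd (Finset.mem_range.2 (by omega)) hn'
    have hhom : G.IsHomogeneous G.totalDegree := by
      have h1 := MvPolynomial.sum_homogeneousComponent G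
      rw [Finset.sum_range_succ, Finset.sum_eq_zero
        (fun n hn => hcomp n (Finset.mem_range.1 hn)), zero_add] at h1
      have h2 := MvPolynomial.homogeneousComponent_isHomogeneous G.totalDegree G
      rwa [h1] at h2
    refine no_fixed i0 hS hp hhom (j := j) (fun h1 => ?_) fun F hF => hdvd F (hmem F hF)
    have h2 : ev (MvPolynomial.X j) = 0 := hGle (Ideal.mem_span_singleton.2 h1)
    rw [hXj] at h2
    exact X_ne_zero h2
  have hGp : (Ideal.span {G}).IsPrime := (Ideal.span_singleton_prime hp.ne_zero).2 hp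
  have hmax : P.IsMaximal := by
    by_contra hn
    obtain ⟨M, hM, hPM⟩ := P.exists_le_maximal hP.ne_top
    have hPM' : P < M := lt_of_le_of_ne hPM (by rintro rfl; exact hn hM)
    let p0 : PrimeSpectrum (MvPolynomial (Fin 3) K) := ⟨⊥, Ideal.isPrime_bot⟩
    let p1 : PrimeSpectrum (MvPolynomial (Fin 3) K) := ⟨_, hGp⟩
    let p2 : PrimeSpectrum (MvPolynomial (Fin 3) K) := ⟨_, hPh⟩
    let p3 : PrimeSpectrum (MvPolynomial (Fin 3) K) := ⟨_, hP⟩
    let p4 : PrimeSpectrum (MvPolynomial (Fin 3) K) := ⟨_, hM.isPrime⟩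
    have h01 : p0 < p1 := by
      show (⊥ : Ideal (MvPolynomial (Fin 3) K)) < Ideal.span {G}
      rw [bot_lt_iff_ne_bot, Ne, Ideal.span_singleton_eq_bot]
      exact hp.ne_zero
    have h12 : p1 < p2 := hGlt
    have h23 : p2 < p3 := hlt
    have h34 : p3 < p4 := hPM'
    have e1 := Order.height_add_one_le h01
    have e2 := Order.height_add_one_le h12
    have e3 := Order.height_add_one_le h23
    have e4 := Order.height_add_one_le h34
    have e5 := Order.height_le_krullDim p4
    have e6 : Order.krullDim (PrimeSpectrum (MvPolynomial (Fin 3) K)) = 3 := by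
      have := MvPolynomial.ringKrullDim_of_isNoetherianRing (R := K) (ι := Fin 3)
      rw [ringKrullDim_eq_zero_of_field, zero_add] at this
      simpa [ringKrullDim] using this
    rw [e6] at e5
    have e7 : Order.height p4 ≤ 3 := WithBot.coe_le_coe.1 e5
    have e8 : (4 : ℕ∞) ≤ Order.height p4 := by
      calc (4 : ℕ∞) = 0 + 1 + 1 + 1 + 1 := by norm_num
        _ ≤ Order.height p0 + 1 + 1 + 1 + 1 := by gcongr; exact zero_le
        _ ≤ Order.height p1 + 1 + 1 + 1 := by gcongr
        _ ≤ Order.height p2 + 1 + 1 := by gcongr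
        _ ≤ Order.height p3 + 1 := by gcongr
        _ ≤ Order.height p4 := e4
    have e9 := e8.trans e7
    exact absurd e9 (by decide)
  let _ : Field (MvPolynomial (Fin 3) K ⧸ P) := Ideal.Quotient.field P
  have hfin : Module.Finite K (MvPolynomial (Fin 3) K ⧸ P) :=
    finite_of_finite_type_of_isJacobsonRing K _
  have h1 : IsIntegral K (Ideal.Quotient.mk P (MvPolynomial.X l)) :=
    Algebra.IsIntegral.isIntegral _
  have h2 := h1.map (Ideal.Quotient.liftₐ P (MvPolynomial.aeval (R := K) q) fun F hF => hF)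
  simpa using h2

theorem Der.eq_zero_of_integral {L : Type*} [Field L] [Algebra K L] [CharZero K] (D : Der L)
    (hD : ∀ x, D.f (algebraMap K L x) = 0) {x : L} (hx : IsIntegral K x) : D.f x = 0 := by
  have h1 : ∀ p : K[X], D.f (aeval x p) = aeval x (derivative p) * D.f x := by
    intro p
    induction p using Polynomial.induction_on with
    | C c => simp [hD]
    | add p q hp hq => simp only [map_add, hp, hq, add_mul]
    | monomial n c h =>
      rw [pow_succ, ← mul_assoc, map_mul, D.mul, h, aeval_X,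
        derivative_mul (f := C c * X ^ n) (g := X), derivative_X, map_add, map_mul _ _ X,
        aeval_X, mul_one]
      ring
  have h2 := h1 (minpoly K x)
  rw [minpoly.aeval, map_zero] at h2
  have h3 := (minpoly.irreducible hx).separable.aeval_derivative_ne_zero (minpoly.aeval K x)
  exact (mul_eq_zero.1 h2.symm).resolve_left h3

theorem exists_antider [CharZero K] (g : K[X]) :
    ∃ f : K[X], derivative f = g ∧ f.natDegree ≤ g.natDegree + 1 := by
  refine ⟨∑ l ∈ Finset.range (g.natDegree + 1), monomial (l + 1) (g.coeff l / (l + 1)), ?_, ?_⟩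
  · rw [derivative_sum]
    conv_rhs => rw [g.as_sum_range]
    refine Finset.sum_congr rfl fun l _ => ?_
    rw [derivative_monomial_succ, div_mul_cancel₀]
    exact_mod_cast Nat.succ_ne_zero l
  · refine natDegree_sum_le_of_forall_le _ _ fun l hl => ?_
    refine (natDegree_monomial_le _).trans ?_
    have := Finset.mem_range.1 hl
    omega

end Fixed

section Main

variable {K L : Type*} [Field K] [CharZero K] [Field L] [Algebra K L]

omit [CharZero K] in
theorem mvD_comb (D : Der L) (hD : ∀ x, D.f (algebraMap K L x) = 0) {σ ι : Type*} (s : Finset ι)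
    (c : ι → L) (G : ι → MvPolynomial σ K) :
    mvD D (∑ n ∈ s, MvPolynomial.C (c n) * MvPolynomial.map (algebraMap K L) (G n)) =
      ∑ n ∈ s, MvPolynomial.C (D.f (c n)) * MvPolynomial.map (algebraMap K L) (G n) := by
  ext m
  rw [coeff_mvD, MvPolynomial.coeff_sum, MvPolynomial.coeff_sum, map_sum]
  refine Finset.sum_congr rfl fun n _ => ?_
  rw [MvPolynomial.coeff_C_mul, MvPolynomial.coeff_C_mul, MvPolynomial.coeff_map, D.mul, hD]
  ring

omit [CharZero K] in
theorem mvD_comb_single (D : Der L) (hD : ∀ x, D.f (algebraMap K L x) = 0) {σ ι : Type*}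
    [DecidableEq ι] (s : Finset ι) (c : ι → L) (G : ι → MvPolynomial σ K) {n : ι} (hn : n ∈ s)
    (hc : ∀ n', D.f (c n') = if n' = n then 1 else 0) :
    mvD D (∑ n ∈ s, MvPolynomial.C (c n) * MvPolynomial.map (algebraMap K L) (G n)) =
      MvPolynomial.map (algebraMap K L) (G n) := by
  rw [mvD_comb D hD, Finset.sum_eq_single n]
  · rw [hc, if_pos rfl, map_one, one_mul]
  · intro n' _ h
    rw [hc, if_neg h, map_zero, zero_mul]
  · intro h
    exact absurd hn h

theorem euler_eval {F : MvPolynomial (Fin 3) L} [CharZero L] {d : ℕ} (hF : F.IsHomogeneous (d + 1))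
    {q : Fin 3 → L} (h : ∀ j, MvPolynomial.eval q (MvPolynomial.pderiv j F) = 0) :
    MvPolynomial.eval q F = 0 := by
  have h1 := congrArg (MvPolynomial.eval q) hF.sum_X_mul_pderiv
  rw [map_sum, map_nsmul, Finset.sum_eq_zero (fun j _ => by rw [map_mul, h, mul_zero]),
    nsmul_eq_mul] at h1
  refine (mul_eq_zero.1 h1.symm).resolve_left ?_
  exact_mod_cast Nat.succ_ne_zero d

/-- If all members are singular at `q`, then `q` is a base point of the system with all
multiplicities lowered by one. -/
theorem xu [CharZero L] {a b : Fin r → L} {w : Fin r → ℕ} {d : ℕ}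
    (hS : ∀ i, Surj a b (up w i) d) (η : Fin r → Der L) (hηa : ∀ i j, (η i).f (a j) = 0)
    (hηb : ∀ i j, (η i).f (b j) = if j = i then 1 else 0) {q : Fin 3 → L}
    (h0 : ∀ F, Mem a b w d F → MvPolynomial.eval q F = 0)
    (h1 : ∀ F, Mem a b w d F → ∀ j, MvPolynomial.eval q (MvPolynomial.pderiv j F) = 0)
    {G : MvPolynomial (Fin 3) L} (hG : Mem a b (fun i => w i - 1) d G) :
    MvPolynomial.eval q G = 0 := by
  classical
  have h2 : ∀ i F, Mem a b w d F → MvPolynomial.eval q (mvD (η i) F) = 0 := by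
    intro i F hF
    have h3 := chain_eval (η i) q F
    rw [h0 F hF, map_zero, Finset.sum_eq_zero (fun j _ => by rw [h1 F hF, zero_mul]),
      add_zero] at h3
    exact h3.symm
  have h3 : ∀ i, ∃ F, Mem a b w d F ∧ ∀ k < w i,
      derivative ((T1 (a i) (b i) F).coeff (k + 1)) = (T1 (a i) (b i) G).coeff k := by
    intro i
    obtain ⟨f, hf, hf'⟩ := exists_antider ((T1 (a i) (b i) G).coeff (w i - 1))
    rcases Nat.eq_zero_or_pos (w i) with hw | hw
    · obtain ⟨F, hF, -⟩ := (hS i).lead 0 (by simp)
      exact ⟨F, hF, fun k hk => by omega⟩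
    · have h4 := natDegree_T1 (a i) (b i) G (w i - 1)
      obtain ⟨F, hF, hF'⟩ := (hS i).lead f (by omega)
      refine ⟨F, hF, fun k hk => ?_⟩
      by_cases h5 : k + 1 = w i
      · rw [h5, hF', hf, show w i - 1 = k by omega]
      · rw [X_pow_dvd_iff.1 (hF.2 i) _ (by omega),
          X_pow_dvd_iff.1 (hG.2 i) k (by show k < w i - 1; omega), derivative_zero]
  choose F hF hF' using h3
  have h4 : Mem a b w d (G + ∑ i, mvD (η i) (F i)) := by
    refine ⟨hG.1.add (MvPolynomial.IsHomogeneous.sum _ _ _ fun i _ => mvD_homog _ (hF i).1),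
      fun j => ?_⟩
    rw [X_pow_dvd_iff]
    intro k hk
    have h5 : ∀ i, (T1 (a j) (b j) (mvD (η i) (F i))).coeff k =
        if j = i then -(T1 (a j) (b j) G).coeff k else 0 := by
      intro i
      have h6 := coeff_T1_mvD (η i) (b := b j) (hηa i j) (F i) k
      rw [X_pow_dvd_iff.1 ((hF i).2 j) k hk, map_zero, hηb, ← coeff_succ_T1] at h6
      split_ifs at h6 ⊢ with h7
      · subst h7
        rw [hF' j k hk, C_1, mul_one] at h6
        linear_combination -h6
      · rw [C_0, mul_zero, add_zero] at h6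
        exact h6.symm
    rw [map_add, map_sum, coeff_add, finsetSum_coeff]
    simp only [h5]
    rw [Finset.sum_ite_eq]
    simp
  have h5 := h0 _ h4
  rw [map_add, map_sum, Finset.sum_eq_zero (fun i _ => h2 i _ (hF i)), add_zero] at h5
  exact h5

theorem core {a b : Fin r → K} {w : Fin r → ℕ} {d : ℕ} (i0 : Fin r)
    (hS : ∀ i, Surj a b (up w i) (d + 1)) (hS' : Surj a b (fun i => w i - 1) d)
    (η : Fin r → Der L) (hηa : ∀ i j, (η i).f (algebraMap K L (a j)) = 0)
    (hηb : ∀ i j, (η i).f (algebraMap K L (b j)) = if j = i then 1 else 0)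
    {ι : Type*} [DecidableEq ι] (s : Finset ι) (G : ι → MvPolynomial (Fin 3) K)
    (hG : ∀ n, (G n).IsHomogeneous (d + 1))
    (hspan : ∀ F : MvPolynomial (Fin 3) L,
      Mem (fun i => algebraMap K L (a i)) (fun i => algebraMap K L (b i)) w (d + 1) F →
      ∃ x : ι → L, F = ∑ n ∈ s, MvPolynomial.C (x n) * MvPolynomial.map (algebraMap K L) (G n))
    (c : ι → L) (δ : ι → Der L) (hδ : ∀ n x, (δ n).f (algebraMap K L x) = 0)
    (hδc : ∀ n n', (δ n).f (c n') = if n' = n then 1 else 0) {q : Fin 3 → L} (hq : q ≠ 0)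
    (hq' : ∀ (i : Fin r) (t : L), q ≠ t • ![algebraMap K L (a i), algebraMap K L (b i), 1]) :
    ∃ j, MvPolynomial.eval q (MvPolynomial.pderiv j
      (∑ n ∈ s, MvPolynomial.C (c n) * MvPolynomial.map (algebraMap K L) (G n))) ≠ 0 := by
  have : CharZero L := charZero_of_injective_algebraMap (algebraMap K L).injective
  obtain ⟨F, hFdef⟩ : ∃ F, F =
    ∑ n ∈ s, MvPolynomial.C (c n) * MvPolynomial.map (algebraMap K L) (G n) := ⟨_, rfl⟩
  have hF : F.IsHomogeneous (d + 1) := by
    rw [hFdef]
    exact MvPolynomial.IsHomogeneous.sum _ _ _ fun n _ => ((hG n).map _).C_mul _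
  rw [← hFdef]
  by_contra hcon
  push Not at hcon
  obtain ⟨j0, hj0⟩ : ∃ j, q j ≠ 0 := by
    by_contra h0
    push Not at h0
    exact hq (funext h0)
  obtain ⟨p, hp⟩ : ∃ p : Fin 3 → L, p = fun l => (q j0)⁻¹ * q l := ⟨_, rfl⟩
  have hp0 : p j0 = 1 := by
    rw [hp]
    exact inv_mul_cancel₀ hj0
  have hpne : p ≠ 0 := by
    intro h
    rw [h] at hp0
    exact zero_ne_one hp0
  have hp' : ∀ (i : Fin r) (t : L), p ≠ t • ![algebraMap K L (a i), algebraMap K L (b i), 1] := by
    intro i t h
    refine hq' i (q j0 * t) ?_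
    rw [mul_smul, ← h, hp]
    funext l
    simp only [Pi.smul_apply, smul_eq_mul]
    rw [← mul_assoc, mul_inv_cancel₀ hj0, one_mul]
  have hsing : ∀ j, MvPolynomial.eval p (MvPolynomial.pderiv j F) = 0 := by
    intro j
    have h1 := H932R3.aeval_mul_homog (A := L) (hF.pderiv (i := j)) (q j0)⁻¹ q
    rw [MvPolynomial.aeval_eq_eval, MvPolynomial.aeval_eq_eval, hcon, mul_zero] at h1
    rw [hp]
    exact h1
  have hF0 := euler_eval hF hsing
  have h1 : ∀ n ∈ s, MvPolynomial.eval p (MvPolynomial.map (algebraMap K L) (G n)) = 0 := by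
    intro n hn
    have h2 := chain_eval (δ n) p F
    rw [hF0, map_zero, Finset.sum_eq_zero (fun j _ => by rw [hsing, zero_mul]), add_zero, hFdef,
      mvD_comb_single (δ n) (hδ n) s c G hn (hδc n)] at h2
    exact h2.symm
  have h2 : ∀ F', Mem (fun i => algebraMap K L (a i)) (fun i => algebraMap K L (b i)) w (d + 1) F' →
      MvPolynomial.eval p F' = 0 := by
    intro F' hF'
    obtain ⟨x, rfl⟩ := hspan F' hF'
    rw [map_sum]
    exact Finset.sum_eq_zero fun n hn => by rw [map_mul, h1 n hn, mul_zero]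
  have hint := integral_of_base i0 hS hp0 (fun F' hF' => by
    have h3 := h2 _ (hF'.map (algebraMap K L))
    rwa [MvPolynomial.eval_map, ← MvPolynomial.aeval_def] at h3)
  have h3 : ∀ n ∈ s, ∀ j, MvPolynomial.eval p (MvPolynomial.pderiv j
      (MvPolynomial.map (algebraMap K L) (G n))) = 0 := by
    intro n hn j
    have h4 := chain_eval (δ n) p (MvPolynomial.pderiv j F)
    have h5 : MvPolynomial.pderiv j F = ∑ n ∈ s, MvPolynomial.C (c n) *
        MvPolynomial.map (algebraMap K L) (MvPolynomial.pderiv j (G n)) := by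
      rw [hFdef, map_sum]
      refine Finset.sum_congr rfl fun n _ => ?_
      rw [MvPolynomial.pderiv_C_mul, MvPolynomial.pderiv_map]
    rw [hsing, map_zero, Finset.sum_eq_zero (fun l _ => by
      rw [(δ n).eq_zero_of_integral (hδ n) (hint l), mul_zero]), add_zero, h5,
      mvD_comb_single (δ n) (hδ n) s c _ hn (hδc n), ← MvPolynomial.pderiv_map] at h4
    exact h4.symm
  have h4 : ∀ F', Mem (fun i => algebraMap K L (a i)) (fun i => algebraMap K L (b i)) w (d + 1) F' →
      ∀ j, MvPolynomial.eval p (MvPolynomial.pderiv j F') = 0 := by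
    intro F' hF' j
    obtain ⟨x, rfl⟩ := hspan F' hF'
    rw [map_sum, map_sum]
    exact Finset.sum_eq_zero fun n hn => by
      rw [MvPolynomial.pderiv_C_mul, map_mul, h3 n hn, mul_zero]
  obtain ⟨G', hG', hG''⟩ := (hS'.map (algebraMap K L)).exists_ne hpne hp'
  exact hG'' (xu (fun i => (hS i).map (algebraMap K L)) η hηa hηb h2 h4 hG')

omit [CharZero K] in
/-- Bertini on the exceptional curve: the generic member of a complete system on a line has
only simple zeros. -/
theorem simple_roots {ι : Type*} [DecidableEq ι] (s : Finset ι) (g : ι → K[X])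
    (hspan : ∃ x : ι → L, (1 : L[X]) = ∑ n ∈ s, C (x n) * (g n).map (algebraMap K L))
    (c : ι → L) (δ : ι → Der L) (hδ : ∀ n x, (δ n).f (algebraMap K L x) = 0)
    (hδc : ∀ n n', (δ n).f (c n') = if n' = n then 1 else 0) (t : L)
    (h0 : (∑ n ∈ s, C (c n) * (g n).map (algebraMap K L)).eval t = 0) :
    (derivative (∑ n ∈ s, C (c n) * (g n).map (algebraMap K L))).eval t ≠ 0 := by
  intro h1
  have hch : ∀ (D : Der L) (f : L[X]), D.f (f.eval t) =
      ((polyD D).f f).eval t + (derivative f).eval t * D.f t := by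
    intro D f
    induction f using Polynomial.induction_on with
    | C c => simp [polyD_C]
    | add p q hp hq => simp only [map_add, eval_add, hp, hq]; ring
    | monomial n c h =>
      rw [pow_succ, ← mul_assoc, eval_mul, D.mul, h, eval_X, Der.mul _ _ X, polyD_X,
        derivative_mul (f := C c * X ^ n) (g := X), derivative_X]
      simp only [eval_add, eval_mul, eval_X, eval_zero, eval_one]
      ring
  have h2 : ∀ n ∈ s, ((g n).map (algebraMap K L)).eval t = 0 := by
    intro n hn
    have h3 := hch (δ n) (∑ n ∈ s, C (c n) * (g n).map (algebraMap K L))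
    rw [h0, h1, map_zero, zero_mul, add_zero] at h3
    have h4 : (polyD (δ n)).f (∑ n ∈ s, C (c n) * (g n).map (algebraMap K L)) =
        (g n).map (algebraMap K L) := by
      ext m
      rw [coeff_polyD, finsetSum_coeff, map_sum, Finset.sum_eq_single n]
      · rw [coeff_C_mul, Der.mul, coeff_map, hδ, hδc, if_pos rfl]
        ring
      · intro n' _ h
        rw [coeff_C_mul, Der.mul, coeff_map, hδ, hδc, if_neg h]
        ring
      · intro h
        exact absurd hn h
    rw [h4] at h3
    exact h3.symm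
  obtain ⟨x, hx⟩ := hspan
  have h3 := congrArg (eval t) hx
  rw [eval_one, eval_finsetSum, Finset.sum_eq_zero (fun n hn => by
    rw [eval_mul, h2 n hn, mul_zero])] at h3
  exact one_ne_zero h3

end Main

end Pool.Agent.H375Z.Sm
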