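import Mathlib

set_option autoImplicit false

/-!
# Plane linear systems with assigned multiple points and smoothness on the blow-up
-/

namespace Pool.Agent.H375Z.Sm

open MvPolynomial

/-- The forms of degree `d` in three variables with multiplicity at least `m i` at the point
`(P i 0 : P i 1 : 1)` for every `i`. Its projectivisation is the complete linear system
`|d H - m 1 E 1 - ... - m r E r|` on the blow-up of the plane at these points. -/
noncomputable def sys {r : ℕ} (P : Fin r → Fin 2 → ℂ) (m : Fin r → ℕ) (d : ℕ) :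
    Submodule ℂ (MvPolynomial (Fin 3) ℂ) :=
  homogeneousSubmodule (Fin 3) ℂ d ⊓ Submodule.restrictScalars ℂ
    (⨅ i : Fin r, (Ideal.span ({X 0 - C (P i 0) * X 2, X 1 - C (P i 1) * X 2} :
      Set (MvPolynomial (Fin 3) ℂ))) ^ (m i))

/-- Jacobian criterion: if `x` lies on the hypersurface `G = 0`, some partial derivative of `G`
does not vanish at `x`. -/
def SmoothAt {n : ℕ} (G : MvPolynomial (Fin n) ℂ) (x : Fin n → ℂ) : Prop :=
  eval x G = 0 → ∃ j, eval x (pderiv j G) ≠ 0

/-- The divisor `π^*(F = 0) - m 1 E 1 - ... - m r E r` on the blow-up of the plane at the points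
`(P i 0 : P i 1 : 1)` is a smooth curve: `F = 0` is smooth at all points of the plane other than
the blown-up ones, and in both standard charts `(s, t) ↦ (s, s t)`, `(s, t) ↦ (s t, s)` of the
blow-up at the `i`-th point, where `E i` is `s = 0`, the pull-back of `F` is `s ^ m i * G` with
`G = 0` smooth at all points of `E i`. -/
def SmoothOnBlowup {r : ℕ} (P : Fin r → Fin 2 → ℂ) (m : Fin r → ℕ)
    (F : MvPolynomial (Fin 3) ℂ) : Prop :=
  (∀ q : Fin 3 → ℂ, q ≠ 0 → (∀ (i : Fin r) (t : ℂ), q ≠ t • ![P i 0, P i 1, 1]) →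
    SmoothAt F q) ∧
  ∀ i : Fin r,
    (∃ G : MvPolynomial (Fin 2) ℂ,
      aeval (![C (P i 0) + X 0, C (P i 1) + X 0 * X 1, 1] : Fin 3 → MvPolynomial (Fin 2) ℂ) F =
        X 0 ^ m i * G ∧ ∀ t : ℂ, SmoothAt G ![0, t]) ∧
    (∃ G : MvPolynomial (Fin 2) ℂ,
      aeval (![C (P i 0) + X 0 * X 1, C (P i 1) + X 0, 1] : Fin 3 → MvPolynomial (Fin 2) ℂ) F =
        X 0 ^ m i * G ∧ ∀ t : ℂ, SmoothAt G ![0, t])

/-- The general member of the space of forms `V` has the property `p`: all members outside a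
hypersurface (a polynomial condition on the coefficients) that does not contain `V` have it. -/
def GeneralMember (V : Submodule ℂ (MvPolynomial (Fin 3) ℂ))
    (p : MvPolynomial (Fin 3) ℂ → Prop) : Prop :=
  ∃ Ψ : MvPolynomial (Fin 3 →₀ ℕ) ℂ, (∃ F ∈ V, eval (fun n => coeff n F) Ψ ≠ 0) ∧
    ∀ F ∈ V, eval (fun n => coeff n F) Ψ ≠ 0 → p F

/-- The property `p` holds for general `r`-tuples of points `(P i 0 : P i 1 : 1)`: for all tuples
outside a hypersurface. -/
def GeneralPoints (r : ℕ) (p : (Fin r → Fin 2 → ℂ) → Prop) : Prop :=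
  ∃ Q : MvPolynomial (Fin r × Fin 2) ℂ, Q ≠ 0 ∧ ∀ P : Fin r → Fin 2 → ℂ,
    eval (fun ij : Fin r × Fin 2 => P ij.1 ij.2) Q ≠ 0 → p P

end Pool.Agent.H375Z.Sm
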