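import Mathlib
import Pool.Agent.H375Z.Sm.Core
import Pool.Agent.H375Z.Sm.Defs

set_option autoImplicit false

/-!
# From the generic member to the general member
-/

namespace Pool.Agent.H375Z.Sm

open Polynomial

variable {r : ℕ}

theorem spread {A L τ ι : Type*} [CommRing A] [IsDomain A] [Field L] [IsAlgClosed L] [Algebra A L]
    [Algebra (FractionRing A) L] [IsScalarTower A (FractionRing A) L] [Finite τ]
    (g : ι → MvPolynomial τ A) (h : MvPolynomial τ A)
    (H : ∀ q : τ → L, (∀ j, MvPolynomial.eval q (MvPolynomial.map (algebraMap A L) (g j)) = 0) →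
      MvPolynomial.eval q (MvPolynomial.map (algebraMap A L) h) = 0) :
    ∃ Δ : A, Δ ≠ 0 ∧ ∀ φ : A →+* ℂ, φ Δ ≠ 0 → ∀ q : τ → ℂ,
      (∀ j, MvPolynomial.eval q (MvPolynomial.map φ (g j)) = 0) →
        MvPolynomial.eval q (MvPolynomial.map φ h) = 0 := by
  let _ : Algebra (MvPolynomial τ A) (MvPolynomial τ (FractionRing A)) :=
    MvPolynomial.algebraMvPolynomial
  have hev : ∀ (q : τ → L) (p : MvPolynomial τ A),
      MvPolynomial.aeval q (MvPolynomial.map (algebraMap A (FractionRing A)) p) =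
        MvPolynomial.eval q (MvPolynomial.map (algebraMap A L) p) := by
    intro q p
    rw [MvPolynomial.aeval_def, ← MvPolynomial.eval_map, MvPolynomial.map_map,
      ← IsScalarTower.algebraMap_eq]
  let I : Ideal (MvPolynomial τ A) := Ideal.span (Set.range g)
  let J : Ideal (MvPolynomial τ (FractionRing A)) :=
    I.map (algebraMap (MvPolynomial τ A) (MvPolynomial τ (FractionRing A)))
  have h1 : MvPolynomial.map (algebraMap A (FractionRing A)) h ∈ J.radical := by
    rw [← MvPolynomial.vanishingIdeal_zeroLocus_eq_radical (K := L),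
      MvPolynomial.mem_vanishingIdeal_iff]
    intro q hq
    rw [hev]
    refine H q fun j => ?_
    rw [← hev]
    exact hq _ (Ideal.mem_map_of_mem _ (Ideal.subset_span ⟨j, rfl⟩))
  obtain ⟨N, hN⟩ := h1
  have hloc := MvPolynomial.isLocalization (σ := τ) (nonZeroDivisors A) (FractionRing A)
  obtain ⟨⟨x, s⟩, hx⟩ := (IsLocalization.mem_map_algebraMap_iff
    ((nonZeroDivisors A).map (MvPolynomial.C (σ := τ))) _).1 hN
  obtain ⟨Δ, hΔ, hs⟩ := s.2
  have h2 : h ^ N * MvPolynomial.C Δ = x.1 := by
    apply MvPolynomial.map_injective (algebraMap A (FractionRing A))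
      (IsFractionRing.injective A (FractionRing A))
    rw [map_mul, map_pow]
    have hs' : MvPolynomial.C Δ = s.1 := hs
    rw [hs']
    exact hx
  refine ⟨Δ, nonZeroDivisors.ne_zero hΔ, fun φ hφ q hq => ?_⟩
  have h3 : I ≤ RingHom.ker ((MvPolynomial.eval q).comp (MvPolynomial.map φ)) := by
    rw [Ideal.span_le]
    rintro _ ⟨j, rfl⟩
    exact hq j
  have h4 : MvPolynomial.eval q (MvPolynomial.map φ x.1) = 0 := h3 x.2
  rw [← h2, map_mul, map_mul, map_pow, map_pow, MvPolynomial.map_C, MvPolynomial.eval_C] at h4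
  exact eq_zero_of_pow_eq_zero ((mul_eq_zero.1 h4).resolve_right hφ)

theorem eval_map_aeval {A S : Type*} [CommRing A] [CommRing S] (φ : A →+* S) (q : Unit → S)
    (f : A[X]) : MvPolynomial.eval q (MvPolynomial.map φ
      (aeval (MvPolynomial.X () : MvPolynomial Unit A) f)) = (f.map φ).eval (q ()) := by
  induction f using Polynomial.induction_on' with
  | add p q hp hq => simp only [map_add, Polynomial.map_add, eval_add, hp, hq]
  | monomial n c => simp [aeval_monomial]

theorem spread1 {A : Type*} (L : Type*) [CommRing A] [IsDomain A] [Field L] [IsAlgClosed L]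
    [Algebra A L] [Algebra (FractionRing A) L] [IsScalarTower A (FractionRing A) L] (f : A[X])
    (H : ∀ t : L, (f.map (algebraMap A L)).eval t = 0 →
      (derivative (f.map (algebraMap A L))).eval t ≠ 0) :
    ∃ Δ : A, Δ ≠ 0 ∧ ∀ φ : A →+* ℂ, φ Δ ≠ 0 → ∀ t : ℂ, (f.map φ).eval t = 0 →
      (derivative (f.map φ)).eval t ≠ 0 := by
  obtain ⟨Δ, hΔ, h⟩ := spread (L := L) (τ := Unit) (ι := Bool)
    (fun j => aeval (MvPolynomial.X ()) (if j then f else derivative f)) 1 (by
      intro q hq
      have h1 := hq true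
      have h2 := hq false
      rw [eval_map_aeval] at h1 h2
      simp only [if_true, Bool.false_eq_true, if_false] at h1 h2
      rw [← derivative_map] at h2
      exact absurd h2 (H _ h1))
  refine ⟨Δ, hΔ, fun φ hφ t h1 h2 => ?_⟩
  have h3 := h φ hφ (fun _ => t) (fun j => by
    rw [eval_map_aeval]
    cases j
    · simp only [Bool.false_eq_true, if_false]
      rw [← derivative_map]
      exact h2
    · exact h1)
  simp at h3

/-- Exponents of degree `d`. -/
noncomputable def mons (d : ℕ) : Finset (Fin 3 →₀ ℕ) :=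
  (Finset.univ : Finset (Fin 3)).finsuppAntidiag d

theorem mem_mons {d : ℕ} {n : Fin 3 →₀ ℕ} : n ∈ mons d ↔ n.degree = d := by
  rw [mons, Finset.mem_finsuppAntidiag, Finsupp.degree_eq_sum]
  simp

theorem sum_mons {S : Type*} [CommRing S] {d : ℕ} {F : MvPolynomial (Fin 3) S}
    (hF : F.IsHomogeneous d) :
    ∑ n ∈ mons d, F.coeff n • MvPolynomial.monomial n (1 : S) = F := by
  ext m
  rw [MvPolynomial.coeff_sum]
  simp only [MvPolynomial.coeff_smul, MvPolynomial.coeff_monomial, smul_eq_mul, mul_ite, mul_one,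
    mul_zero]
  rw [Finset.sum_ite_eq']
  split_ifs with h
  · rfl
  · exact (hF.coeff_eq_zero fun h1 => h (mem_mons.2 h1)).symm

theorem exists_family {A : Type} [CommRing A] [IsDomain A] (a b : Fin r → A) (w : Fin r → ℕ)
    (d : ℕ) (h : Surj (fun i => algebraMap A (FractionRing A) (a i))
      (fun i => algebraMap A (FractionRing A) (b i)) w d) :
    ∃ (Δ : A) (G : (Fin 3 →₀ ℕ) → MvPolynomial (Fin 3) A), Δ ≠ 0 ∧ (∀ n, Mem a b w d (G n)) ∧
      ∀ (S : Type) [CommRing S] (ψ : A →+* S) (F : MvPolynomial (Fin 3) S),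
        Mem (fun i => ψ (a i)) (fun i => ψ (b i)) w d F →
        ∑ n ∈ mons d, MvPolynomial.C (F.coeff n) * MvPolynomial.map ψ (G n) =
          MvPolynomial.C (ψ Δ) * F := by
  classical
  let _ : Algebra (MvPolynomial (Fin 3) A) (MvPolynomial (Fin 3) (FractionRing A)) :=
    MvPolynomial.algebraMvPolynomial
  have hloc := MvPolynomial.isLocalization (σ := Fin 3) (nonZeroDivisors A) (FractionRing A)
  have hinj := IsFractionRing.injective A (FractionRing A)
  choose H hH hH' using fun e : Ix w => h (Pi.single e 1)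
  obtain ⟨s, hs⟩ := IsLocalization.exist_integer_multiples_of_finite
    ((nonZeroDivisors A).map (MvPolynomial.C (σ := Fin 3))) H
  obtain ⟨Δ, hΔ, hΔs⟩ := s.2
  have hΔs' : MvPolynomial.C Δ = s.1 := hΔs
  choose H' hH'' using hs
  have h1 : ∀ e, MvPolynomial.map (algebraMap A (FractionRing A)) (H' e) =
      algebraMap A (FractionRing A) Δ • H e := by
    intro e
    have h2 := hH'' e
    rw [← hΔs', Algebra.smul_def, MvPolynomial.algebraMap_def, MvPolynomial.map_C] at h2
    rw [MvPolynomial.smul_eq_C_mul]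
    exact h2
  have h2 : ∀ e, (H' e).IsHomogeneous d := by
    intro e
    refine MvPolynomial.IsHomogeneous.of_map hinj ?_
    rw [h1, MvPolynomial.smul_eq_C_mul]
    exact (hH e).C_mul _
  have h3 : ∀ e e', jet a b w (H' e) e' = if e' = e then Δ else 0 := by
    intro e e'
    apply hinj
    rw [← jet_map, h1, map_smul, hH', Pi.smul_apply, Pi.single_apply]
    split_ifs <;> simp
  refine ⟨Δ, fun n => if n ∈ mons d then Δ • MvPolynomial.monomial n 1 -
    ∑ e, jet a b w (MvPolynomial.monomial n 1) e • H' e else 0, nonZeroDivisors.ne_zero hΔ,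
    fun n => ?_, fun S _ ψ F hF => ?_⟩
  · beta_reduce
    split_ifs with hn
    · refine ⟨MvPolynomial.IsHomogeneous.sub ?_ ?_, ?_⟩
      · rw [MvPolynomial.smul_eq_C_mul]
        exact (MvPolynomial.isHomogeneous_monomial _ (mem_mons.1 hn)).C_mul _
      · refine MvPolynomial.IsHomogeneous.sum _ _ _ fun e _ => ?_
        rw [MvPolynomial.smul_eq_C_mul]
        exact (h2 e).C_mul _
      · rw [← jet_eq_zero_iff]
        funext e'
        rw [map_sub, map_smul, map_sum, Pi.sub_apply, Finset.sum_apply]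
        simp only [map_smul, Pi.smul_apply, h3, smul_eq_mul, mul_ite, mul_zero]
        rw [Finset.sum_ite_eq]
        simp [mul_comm]
    · exact ⟨MvPolynomial.isHomogeneous_zero _ _ _, fun i => by simp⟩
  · have h4 : ∀ e, ∑ n ∈ mons d, F.coeff n * ψ (jet a b w (MvPolynomial.monomial n 1) e) = 0 := by
      intro e
      have h5 := congrFun (jet_eq_zero_iff.2 hF.2) e
      rw [← sum_mons hF.1, map_sum, Finset.sum_apply] at h5
      rw [← show _ = (0 : S) from h5]
      refine Finset.sum_congr rfl fun n _ => ?_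
      rw [map_smul, Pi.smul_apply, smul_eq_mul, ← jet_map, MvPolynomial.map_monomial, map_one]
    have h5 : ∀ n ∈ mons d, MvPolynomial.C (F.coeff n) * MvPolynomial.map ψ
        (if n ∈ mons d then Δ • MvPolynomial.monomial n 1 -
          ∑ e, jet a b w (MvPolynomial.monomial n 1) e • H' e else 0) =
        MvPolynomial.C (ψ Δ) * (F.coeff n • MvPolynomial.monomial n 1) -
          ∑ e, MvPolynomial.C (F.coeff n * ψ (jet a b w (MvPolynomial.monomial n 1) e)) *
            MvPolynomial.map ψ (H' e) := by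
      intro n hn
      rw [if_pos hn, map_sub, map_sum, mul_sub, Finset.mul_sum]
      simp only [MvPolynomial.smul_eq_C_mul, map_mul, MvPolynomial.map_C,
        MvPolynomial.map_monomial, map_one, mul_assoc]
      congr 1
      ring
    rw [Finset.sum_congr rfl h5, Finset.sum_sub_distrib, ← Finset.mul_sum, sum_mons hF.1,
      Finset.sum_comm, Finset.sum_eq_zero, sub_zero]
    intro e _
    rw [← Finset.sum_mul, ← map_sum, h4, map_zero, zero_mul]

theorem coeff_comb {S ι : Type*} [CommRing S] (T : MvPolynomial (Fin 3) S →ₐ[S] S[X][X])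
    (s : Finset ι) (x : ι → S) (G : ι → MvPolynomial (Fin 3) S) (k : ℕ) :
    (T (∑ n ∈ s, MvPolynomial.C (x n) * G n)).coeff k = ∑ n ∈ s, C (x n) * (T (G n)).coeff k := by
  rw [map_sum, finsetSum_coeff]
  refine Finset.sum_congr rfl fun n _ => ?_
  have h : T (MvPolynomial.C (x n)) = C (C (x n)) := T.commutes (x n)
  rw [map_mul, h, coeff_C_mul]

theorem Der.frac {A K L : Type*} [CommRing A] [IsDomain A] [Field K] [Algebra A K]
    [IsFractionRing A K] [Field L] (κ : K →+* L) (D : Der L)
    (h : ∀ x, D.f (κ (algebraMap A K x)) = 0) (y : K) : D.f (κ y) = 0 := by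
  obtain ⟨u, v, hv, rfl⟩ := IsFractionRing.div_surjective (A := A) y
  have hv' : algebraMap A K v ≠ 0 := IsFractionRing.to_map_ne_zero_of_mem_nonZeroDivisors hv
  have h1 := D.mul (κ (algebraMap A K u / algebraMap A K v)) (κ (algebraMap A K v))
  rw [← map_mul, div_mul_cancel₀ _ hv', h, h, mul_zero, zero_add] at h1
  exact (mul_eq_zero.1 h1.symm).resolve_left ((map_ne_zero κ).2 hv')

/-- From the chart to two variables. -/
noncomputable def rho : ℂ[X][X] →+* MvPolynomial (Fin 2) ℂ :=
  eval₂RingHom ((aeval (MvPolynomial.X 1) : ℂ[X] →ₐ[ℂ] MvPolynomial (Fin 2) ℂ) :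
    ℂ[X] →+* MvPolynomial (Fin 2) ℂ) (MvPolynomial.X 0)

theorem rho_X : rho X = MvPolynomial.X 0 := by simp [rho]

theorem rho_C (p : ℂ[X]) : rho (C p) = aeval (MvPolynomial.X 1 : MvPolynomial (Fin 2) ℂ) p := by
  simp [rho]

theorem chart_smooth {g : ℂ[X][X]} {m : ℕ} (hg : X ^ m ∣ g)
    (h : ∀ t : ℂ, (g.coeff m).eval t = 0 → (derivative (g.coeff m)).eval t ≠ 0) :
    ∃ G : MvPolynomial (Fin 2) ℂ, rho g = MvPolynomial.X 0 ^ m * G ∧
      ∀ t : ℂ, SmoothAt G ![0, t] := by
  obtain ⟨g', rfl⟩ := hg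
  have h1 : (X ^ m * g').coeff m = g'.coeff 0 := by
    have := coeff_X_pow_mul g' m 0
    rwa [zero_add] at this
  rw [h1] at h
  have h2 : rho g' = MvPolynomial.X 0 * rho (divX g') +
      aeval (MvPolynomial.X 1 : MvPolynomial (Fin 2) ℂ) (g'.coeff 0) := by
    conv_lhs => rw [← X_mul_divX_add g']
    rw [map_add, map_mul, rho_X, rho_C]
  have h3 : ∀ (t : ℂ) (p : ℂ[X]), MvPolynomial.eval ![0, t]
      (aeval (MvPolynomial.X 1 : MvPolynomial (Fin 2) ℂ) p) = p.eval t := by
    intro t p
    induction p using Polynomial.induction_on' with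
    | add p q hp hq => simp only [map_add, eval_add, hp, hq]
    | monomial n c => simp [aeval_monomial]
  refine ⟨rho g', by rw [map_mul, map_pow, rho_X], fun t ht => ⟨1, ?_⟩⟩
  rw [h2, map_add, map_mul, h3] at ht
  rw [h2, map_add, Derivation.leibniz, Derivation.map_aeval]
  simp only [map_add, smul_eq_mul, map_mul, h3]
  simp at ht ⊢
  exact h t ht

theorem rho_T1 (a b : ℂ) (F : MvPolynomial (Fin 3) ℂ) : rho (T1 a b F) =
    MvPolynomial.aeval (![MvPolynomial.C a + MvPolynomial.X 0,
      MvPolynomial.C b + MvPolynomial.X 0 * MvPolynomial.X 1, 1] :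
        Fin 3 → MvPolynomial (Fin 2) ℂ) F := by
  induction F using MvPolynomial.induction_on with
  | C c => simp [T1_C, rho_C]
  | add p q hp hq => simp only [map_add, hp, hq]
  | mul_X p i hp =>
    rw [map_mul, map_mul, hp, map_mul, MvPolynomial.aeval_X]
    congr 1
    fin_cases i
    · show rho (T1 a b (MvPolynomial.X 0)) = _
      simp [T1_X0, rho_C, rho_X]
    · show rho (T1 a b (MvPolynomial.X 1)) = _
      rw [T1_X1, map_add, map_mul]
      simp [rho_C, rho_X]
    · show rho (T1 a b (MvPolynomial.X 2)) = _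
      simp [T1_X2]

theorem rho_T2 (a b : ℂ) (F : MvPolynomial (Fin 3) ℂ) : rho (T2 a b F) =
    MvPolynomial.aeval (![MvPolynomial.C a + MvPolynomial.X 0 * MvPolynomial.X 1,
      MvPolynomial.C b + MvPolynomial.X 0, 1] : Fin 3 → MvPolynomial (Fin 2) ℂ) F := by
  induction F using MvPolynomial.induction_on with
  | C c => simp [T2_C, rho_C]
  | add p q hp hq => simp only [map_add, hp, hq]
  | mul_X p i hp =>
    rw [map_mul, map_mul, hp, map_mul, MvPolynomial.aeval_X]
    congr 1
    fin_cases i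
    · show rho (T2 a b (MvPolynomial.X 0)) = _
      rw [T2_X0, map_add, map_mul]
      simp [rho_C, rho_X]
    · show rho (T2 a b (MvPolynomial.X 1)) = _
      simp [T2_X1, rho_C, rho_X]
    · show rho (T2 a b (MvPolynomial.X 2)) = _
      simp [T2_X2]

theorem mem_sys_iff {P : Fin r → Fin 2 → ℂ} {w : Fin r → ℕ} {d : ℕ}
    {F : MvPolynomial (Fin 3) ℂ} :
    F ∈ sys P w d ↔ Mem (fun i => P i 0) (fun i => P i 1) w d F := by
  unfold sys Mem
  rw [Submodule.mem_inf, Submodule.restrictScalars_mem, Ideal.mem_iInf,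
    MvPolynomial.mem_homogeneousSubmodule]
  exact and_congr_right fun h => forall_congr' fun i => mem_ideal_iff h

end Pool.Agent.H375Z.Sm
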