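import Mathlib
import Pool.Agent.H375Z.Sm.Gen

set_option autoImplicit false

/-!
# The smoothness criterion
-/

namespace Pool.Agent.H375Z.Sm

open Polynomial

variable {r : ℕ}

/-- Coordinate ring of the space of points. -/
abbrev A0 (r : ℕ) : Type := MvPolynomial (Fin r × Fin 2) ℂ

/-- Coordinate ring of the space of points and coefficients. -/
abbrev A1 (r : ℕ) : Type := MvPolynomial (Fin 3 →₀ ℕ) (A0 r)

/-- Coordinates of the generic points. -/
noncomputable def gx (r : ℕ) (j : Fin 2) (i : Fin r) : FractionRing (A0 r) :=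
  algebraMap (A0 r) (FractionRing (A0 r)) (MvPolynomial.X (i, j))

/-- The universal member. -/
noncomputable def univF (G : (Fin 3 →₀ ℕ) → MvPolynomial (Fin 3) (A0 r)) (d : ℕ) :
    MvPolynomial (Fin 3) (A1 r) :=
  ∑ n ∈ mons d, MvPolynomial.C (MvPolynomial.X n) *
    MvPolynomial.map (MvPolynomial.C : A0 r →+* A1 r) (G n)

theorem map_univF {S : Type*} [CommRing S] (φ : A1 r →+* S)
    (G : (Fin 3 →₀ ℕ) → MvPolynomial (Fin 3) (A0 r)) (d : ℕ) :
    MvPolynomial.map φ (univF G d) = ∑ n ∈ mons d, MvPolynomial.C (φ (MvPolynomial.X n)) *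
      MvPolynomial.map (φ.comp MvPolynomial.C) (G n) := by
  rw [univF, map_sum]
  refine Finset.sum_congr rfl fun n _ => ?_
  rw [map_mul, MvPolynomial.map_C, MvPolynomial.map_map]

/-- The linear forms cutting out the points. -/
noncomputable def lin (i : Fin r) (j : Fin 2) : MvPolynomial (Fin 3) (A1 r) :=
  MvPolynomial.X (Fin.castSucc j) -
    MvPolynomial.C (MvPolynomial.C (MvPolynomial.X (i, j))) * MvPolynomial.X 2

theorem generic (L : Type) [Field L] [IsAlgClosed L] [Algebra (A1 r) L]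
    [Algebra (FractionRing (A1 r)) L] [IsScalarTower (A1 r) (FractionRing (A1 r)) L]
    [Algebra.FormallyEtale (A1 r) L] (i0 : Fin r) {w : Fin r → ℕ} {d : ℕ}
    (hS : ∀ i, Surj (gx r 0) (gx r 1) (up w i) (d + 1))
    (hS' : Surj (gx r 0) (gx r 1) (fun i => w i - 1) d) {Δ : A0 r}
    {G : (Fin 3 →₀ ℕ) → MvPolynomial (Fin 3) (A0 r)} (hΔ : Δ ≠ 0)
    (hG : ∀ n, (G n).IsHomogeneous (d + 1))
    (hG' : ∀ (ψ : A0 r →+* L) (F : MvPolynomial (Fin 3) L),
        Mem (fun i => ψ (MvPolynomial.X (i, 0))) (fun i => ψ (MvPolynomial.X (i, 1))) w (d + 1) F →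
        ∑ n ∈ mons (d + 1), MvPolynomial.C (F.coeff n) * MvPolynomial.map ψ (G n) =
          MvPolynomial.C (ψ Δ) * F) :
    ∃ Φ : A1 r, Φ ≠ 0 ∧ ∀ φ : A1 r →+* ℂ, φ Φ ≠ 0 →
      (∀ q : Fin 3 → ℂ, (∀ j, MvPolynomial.eval q (MvPolynomial.pderiv j
          (MvPolynomial.map φ (univF G (d + 1)))) = 0) →
        ∀ s : Fin r → Fin 2, MvPolynomial.eval q (MvPolynomial.map φ (∏ i, lin i (s i))) = 0) ∧
      ∀ i : Fin r, ∀ T : ℂ[X][X],
        (T = T1 (φ (MvPolynomial.C (MvPolynomial.X (i, 0))))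
            (φ (MvPolynomial.C (MvPolynomial.X (i, 1)))) (MvPolynomial.map φ (univF G (d + 1))) ∨
          T = T2 (φ (MvPolynomial.C (MvPolynomial.X (i, 0))))
            (φ (MvPolynomial.C (MvPolynomial.X (i, 1)))) (MvPolynomial.map φ (univF G (d + 1)))) →
        ∀ t : ℂ, (T.coeff (w i)).eval t = 0 → (derivative (T.coeff (w i))).eval t ≠ 0 := by
  classical
  have hinj : Function.Injective (algebraMap (A1 r) L) := by
    rw [IsScalarTower.algebraMap_eq (A1 r) (FractionRing (A1 r)) L, RingHom.coe_comp]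
    exact (algebraMap (FractionRing (A1 r)) L).injective.comp (IsFractionRing.injective _ _)
  obtain ⟨ψ, hψ⟩ : ∃ ψ : A0 r →+* L, ψ = (algebraMap (A1 r) L).comp MvPolynomial.C := ⟨_, rfl⟩
  have hψinj : Function.Injective ψ := by
    rw [hψ, RingHom.coe_comp]
    exact hinj.comp (MvPolynomial.C_injective _ _)
  let κ : FractionRing (A0 r) →+* L := IsFractionRing.lift hψinj
  let _ : Algebra (FractionRing (A0 r)) L := κ.toAlgebra
  have hκ : ∀ x, algebraMap (FractionRing (A0 r)) L (algebraMap (A0 r) (FractionRing (A0 r)) x) =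
      ψ x := fun x => IsFractionRing.lift_algebraMap hψinj x
  have hκ' : (algebraMap (FractionRing (A0 r)) L).comp (algebraMap (A0 r) (FractionRing (A0 r))) =
      ψ := RingHom.ext hκ
  have hψ' : ∀ x, ψ x = algebraMap (A1 r) L (MvPolynomial.C x) := fun x => by rw [hψ]; rfl
  have : CharZero (FractionRing (A0 r)) :=
    charZero_of_injective_algebraMap (IsFractionRing.injective (A0 r) _)
  choose δ hδ using fun n : Fin 3 →₀ ℕ => exists_extend (A := A1 r) (Ω := L) (pd n)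
  choose η hη using fun i : Fin r => exists_extend (A := A1 r) (Ω := L) (mvDer (pd (i, 1)))
  have hδ0 : ∀ n x, (δ n).f (algebraMap (FractionRing (A0 r)) L x) = 0 := by
    intro n
    refine Der.frac (A := A0 r) _ (δ n) fun x => ?_
    rw [hκ, hψ', hδ, pd_apply, MvPolynomial.pderiv_C, map_zero]
  have hδc : ∀ n n', (δ n).f (algebraMap (A1 r) L (MvPolynomial.X n')) =
      if n' = n then 1 else 0 := by
    intro n n'
    rw [hδ, pd_apply, MvPolynomial.pderiv_X, Pi.single_apply]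
    split_ifs <;> simp
  have hη0 : ∀ i x, (η i).f (ψ x) = ψ (MvPolynomial.pderiv (i, 1) x) := by
    intro i x
    rw [hψ', hη, hψ']
    congr 1
    exact mvD_C _ _
  have hηa : ∀ i j, (η i).f (algebraMap (FractionRing (A0 r)) L (gx r 0 j)) = 0 := by
    intro i j
    rw [gx, hκ, hη0, MvPolynomial.pderiv_X_of_ne (by simp), map_zero]
  have hηb : ∀ i j, (η i).f (algebraMap (FractionRing (A0 r)) L (gx r 1 j)) =
      if j = i then 1 else 0 := by
    intro i j
    rw [gx, hκ, hη0, MvPolynomial.pderiv_X, Pi.single_apply]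
    by_cases h : j = i
    · simp [h]
    · simp [h]
  have hgx : ∀ j i, algebraMap (FractionRing (A0 r)) L (gx r j i) = ψ (MvPolynomial.X (i, j)) :=
    fun j i => hκ _
  let GK : (Fin 3 →₀ ℕ) → MvPolynomial (Fin 3) (FractionRing (A0 r)) := fun n =>
    MvPolynomial.map (algebraMap (A0 r) (FractionRing (A0 r))) (G n)
  have hGK : ∀ n, MvPolynomial.map (algebraMap (FractionRing (A0 r)) L) (GK n) =
      MvPolynomial.map ψ (G n) := by
    intro n
    show MvPolynomial.map _ (MvPolynomial.map _ _) = _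
    rw [MvPolynomial.map_map, hκ']
  have hspan : ∀ F : MvPolynomial (Fin 3) L,
      Mem (fun i => algebraMap (FractionRing (A0 r)) L (gx r 0 i))
        (fun i => algebraMap (FractionRing (A0 r)) L (gx r 1 i)) w (d + 1) F →
      ∃ x : (Fin 3 →₀ ℕ) → L, F = ∑ n ∈ mons (d + 1), MvPolynomial.C (x n) *
        MvPolynomial.map (algebraMap (FractionRing (A0 r)) L) (GK n) := by
    intro F hF
    simp only [hgx] at hF
    have h1 := hG' ψ F hF
    have h2 : ψ Δ ≠ 0 := (map_ne_zero_iff ψ hψinj).2 hΔ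
    refine ⟨fun n => (ψ Δ)⁻¹ * F.coeff n, ?_⟩
    simp only [hGK, map_mul, mul_assoc]
    rw [← Finset.mul_sum, h1, ← mul_assoc, ← map_mul, inv_mul_cancel₀ h2, map_one, one_mul]
  have huniv : MvPolynomial.map (algebraMap (A1 r) L) (univF G (d + 1)) =
      ∑ n ∈ mons (d + 1), MvPolynomial.C (algebraMap (A1 r) L (MvPolynomial.X n)) *
        MvPolynomial.map (algebraMap (FractionRing (A0 r)) L) (GK n) := by
    rw [map_univF, ← hψ]
    simp only [hGK]
  have h1 : ∀ s : Fin r → Fin 2, ∃ Φ : A1 r, Φ ≠ 0 ∧ ∀ φ : A1 r →+* ℂ, φ Φ ≠ 0 →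
      ∀ q : Fin 3 → ℂ, (∀ j, MvPolynomial.eval q (MvPolynomial.map φ
        (MvPolynomial.pderiv j (univF G (d + 1)))) = 0) →
        MvPolynomial.eval q (MvPolynomial.map φ (∏ i, lin i (s i))) = 0 := by
    intro s
    refine spread (L := L) _ _ fun q hq => ?_
    have h2 : ∃ (i : Fin r) (t : L), q = t • ![algebraMap (FractionRing (A0 r)) L (gx r 0 i),
        algebraMap (FractionRing (A0 r)) L (gx r 1 i), 1] := by
      by_cases hq0 : q = 0
      · exact ⟨i0, 0, by rw [hq0, zero_smul]⟩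
      by_contra hcon
      push Not at hcon
      obtain ⟨j, hj⟩ := core i0 hS hS' η hηa hηb (mons (d + 1)) GK (fun n => (hG n).map _) hspan
        (fun n => algebraMap (A1 r) L (MvPolynomial.X n)) δ hδ0 hδc hq0 hcon
      apply hj
      rw [← huniv, MvPolynomial.pderiv_map]
      exact hq j
    obtain ⟨i, t, rfl⟩ := h2
    rw [map_prod, map_prod]
    refine Finset.prod_eq_zero (Finset.mem_univ i) ?_
    simp only [lin, map_sub, map_mul, MvPolynomial.map_X, MvPolynomial.map_C, MvPolynomial.eval_X,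
      MvPolynomial.eval_C, hgx, ← hψ']
    generalize s i = j
    fin_cases j <;> simp [mul_comm]
  have h2 : ∀ i : Fin r, ∃ Φ : A1 r, Φ ≠ 0 ∧ ∀ φ : A1 r →+* ℂ, φ Φ ≠ 0 → ∀ t : ℂ,
      (((T1 (MvPolynomial.C (MvPolynomial.X (i, 0))) (MvPolynomial.C (MvPolynomial.X (i, 1)))
        (univF G (d + 1))).coeff (w i)).map φ).eval t = 0 →
      (derivative (((T1 (MvPolynomial.C (MvPolynomial.X (i, 0)))
        (MvPolynomial.C (MvPolynomial.X (i, 1))) (univF G (d + 1))).coeff (w i)).map φ)).eval t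
          ≠ 0 := by
    intro i
    refine spread1 L _ fun t => ?_
    rw [← coeff_map_T1, huniv, coeff_comb, ← hψ', ← hψ', ← hgx, ← hgx]
    simp only [coeff_map_T1]
    refine simple_roots _ _ ?_ _ δ hδ0 hδc t
    obtain ⟨F, hF, hF'⟩ := ((hS i).map (algebraMap (FractionRing (A0 r)) L)).lead 1 (by simp)
    obtain ⟨x, rfl⟩ := hspan F hF
    refine ⟨x, ?_⟩
    rw [← hF', coeff_comb]
    simp only [coeff_map_T1]
  have h3 : ∀ i : Fin r, ∃ Φ : A1 r, Φ ≠ 0 ∧ ∀ φ : A1 r →+* ℂ, φ Φ ≠ 0 → ∀ t : ℂ,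
      (((T2 (MvPolynomial.C (MvPolynomial.X (i, 0))) (MvPolynomial.C (MvPolynomial.X (i, 1)))
        (univF G (d + 1))).coeff (w i)).map φ).eval t = 0 →
      (derivative (((T2 (MvPolynomial.C (MvPolynomial.X (i, 0)))
        (MvPolynomial.C (MvPolynomial.X (i, 1))) (univF G (d + 1))).coeff (w i)).map φ)).eval t
          ≠ 0 := by
    intro i
    refine spread1 L _ fun t => ?_
    rw [← coeff_map_T2, huniv, coeff_comb, ← hψ', ← hψ', ← hgx, ← hgx]
    simp only [coeff_map_T2]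
    refine simple_roots _ _ ?_ _ δ hδ0 hδc t
    obtain ⟨F, hF, hF'⟩ := ((hS i).map (algebraMap (FractionRing (A0 r)) L)).lead (X ^ w i)
      (by simp)
    have hF2 : (T2 (algebraMap (FractionRing (A0 r)) L (gx r 0 i))
        (algebraMap (FractionRing (A0 r)) L (gx r 1 i)) F).coeff (w i) = 1 := by
      ext l
      rw [coeff_T2, hF', coeff_X_pow, coeff_one]
      split_ifs <;> first | rfl | omega
    obtain ⟨x, rfl⟩ := hspan F hF
    refine ⟨x, ?_⟩
    rw [← hF2, coeff_comb]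
    simp only [coeff_map_T2]
  choose Φ1 hΦ1 hΦ1' using h1
  choose Φ2 hΦ2 hΦ2' using h2
  choose Φ3 hΦ3 hΦ3' using h3
  refine ⟨(∏ s, Φ1 s) * ((∏ i, Φ2 i) * ∏ i, Φ3 i), mul_ne_zero
    (Finset.prod_ne_zero_iff.2 fun s _ => hΦ1 s) (mul_ne_zero
      (Finset.prod_ne_zero_iff.2 fun s _ => hΦ2 s) (Finset.prod_ne_zero_iff.2 fun s _ => hΦ3 s)),
    fun φ hφ => ?_⟩
  rw [map_mul, map_mul, map_prod, map_prod, map_prod, mul_ne_zero_iff, mul_ne_zero_iff,
    Finset.prod_ne_zero_iff, Finset.prod_ne_zero_iff, Finset.prod_ne_zero_iff] at hφ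
  refine ⟨fun q hq s => hΦ1' s φ (hφ.1 s (Finset.mem_univ _)) q fun j => ?_, ?_⟩
  · rw [← MvPolynomial.pderiv_map]
    exact hq j
  · rintro i T (rfl | rfl)
    · rw [coeff_map_T1]
      exact hΦ2' i φ (hφ.2.1 i (Finset.mem_univ _))
    · rw [coeff_map_T2]
      exact hΦ3' i φ (hφ.2.2 i (Finset.mem_univ _))

theorem criterion (i0 : Fin r) {w : Fin r → ℕ} {d : ℕ}
    (hS0 : Surj (gx r 0) (gx r 1) w (d + 1))
    (hS : ∀ i, Surj (gx r 0) (gx r 1) (up w i) (d + 1))
    (hS' : Surj (gx r 0) (gx r 1) (fun i => w i - 1) d) :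
    GeneralPoints r fun P => GeneralMember (sys P w (d + 1)) (SmoothOnBlowup P w) := by
  classical
  obtain ⟨Δ, G, hΔ, hG, hG'⟩ := exists_family (A := A0 r) (fun i => MvPolynomial.X (i, 0))
    (fun i => MvPolynomial.X (i, 1)) w (d + 1) hS0
  have : CharZero (FractionRing (A1 r)) :=
    charZero_of_injective_algebraMap (IsFractionRing.injective (A1 r) _)
  have h1 : Algebra.FormallyEtale (A1 r) (FractionRing (A1 r)) :=
    Algebra.FormallyEtale.of_isLocalization (nonZeroDivisors (A1 r))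
  have h2 : Algebra.FormallyEtale (FractionRing (A1 r)) (AlgebraicClosure (FractionRing (A1 r))) :=
    Algebra.FormallyEtale.of_isSeparable _ _
  have h3 : Algebra.FormallyEtale (A1 r) (AlgebraicClosure (FractionRing (A1 r))) :=
    Algebra.FormallyEtale.comp (A1 r) (FractionRing (A1 r)) _
  obtain ⟨Φ, hΦ, hΦ'⟩ := generic (AlgebraicClosure (FractionRing (A1 r))) i0 hS hS' hΔ
    (fun n => (hG n).1) (hG' _)
  obtain ⟨n0, hn0⟩ := MvPolynomial.ne_zero_iff.1 hΦ
  refine ⟨Δ * Φ.coeff n0, mul_ne_zero hΔ hn0, fun P hP => ?_⟩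
  obtain ⟨ψ, hψ⟩ : ∃ ψ : A0 r →+* ℂ,
    ψ = MvPolynomial.eval (fun ij : Fin r × Fin 2 => P ij.1 ij.2) := ⟨_, rfl⟩
  have hψX : ∀ i j, ψ (MvPolynomial.X (i, j)) = P i j := by
    intro i j
    rw [hψ, MvPolynomial.eval_X]
  rw [← hψ, map_mul, mul_ne_zero_iff] at hP
  have hΦP : MvPolynomial.map ψ Φ ≠ 0 := by
    intro h
    apply hP.2
    rw [← MvPolynomial.coeff_map, h, MvPolynomial.coeff_zero]
  obtain ⟨c0, hc0⟩ : ∃ c0, MvPolynomial.eval c0 (MvPolynomial.map ψ Φ) ≠ 0 := by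
    by_contra h
    push Not at h
    exact hΦP (MvPolynomial.funext fun x => by rw [h, map_zero])
  let pr : ((Fin 3 →₀ ℕ) → ℂ) → MvPolynomial (Fin 3) ℂ := fun c =>
    ∑ n ∈ mons (d + 1), MvPolynomial.C (c n) * MvPolynomial.map ψ (G n)
  have hpr : ∀ c, Mem (fun i => P i 0) (fun i => P i 1) w (d + 1) (pr c) := by
    intro c
    have h4 : ∀ n, Mem (fun i => P i 0) (fun i => P i 1) w (d + 1) (MvPolynomial.map ψ (G n)) := by
      intro n
      have h5 := (hG n).map ψ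
      simp only [hψX] at h5
      exact h5
    refine ⟨MvPolynomial.IsHomogeneous.sum _ _ _ fun n _ => (h4 n).1.C_mul _, fun i => ?_⟩
    show _ ∣ T1 _ _ (∑ n ∈ mons (d + 1), MvPolynomial.C (c n) * MvPolynomial.map ψ (G n))
    rw [map_sum]
    refine Finset.dvd_sum fun n _ => ?_
    rw [map_mul]
    exact ((h4 n).2 i).mul_left _
  have hpr' : ∀ F, Mem (fun i => P i 0) (fun i => P i 1) w (d + 1) F →
      pr (fun n => F.coeff n) = MvPolynomial.C (ψ Δ) * F := by
    intro F hF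
    refine hG' ℂ ψ F ?_
    simp only [hψX]
    exact hF
  have hlin : ∀ (u : ℂ) (c c' c'' : (Fin 3 →₀ ℕ) → ℂ),
      pr (fun n => u * c n + (c' n - u * c'' n)) =
        MvPolynomial.C u * pr c + (pr c' - MvPolynomial.C u * pr c'') := by
    intro u c c' c''
    simp only [pr, Finset.mul_sum, ← Finset.sum_sub_distrib, ← Finset.sum_add_distrib, map_add,
      map_sub, map_mul]
    exact Finset.sum_congr rfl fun n _ => by ring
  have hinv : ∀ F : MvPolynomial (Fin 3) ℂ,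
      MvPolynomial.C (ψ Δ)⁻¹ * (MvPolynomial.C (ψ Δ) * F) = F := by
    intro F
    rw [← mul_assoc, ← map_mul, inv_mul_cancel₀ hP.1, map_one, one_mul]
  let Ψ : MvPolynomial (Fin 3 →₀ ℕ) ℂ := MvPolynomial.aeval (fun n =>
    MvPolynomial.C (ψ Δ)⁻¹ * MvPolynomial.X n +
      MvPolynomial.C (c0 n - (ψ Δ)⁻¹ * (pr c0).coeff n)) (MvPolynomial.map ψ Φ)
  have hΨ : ∀ c : (Fin 3 →₀ ℕ) → ℂ, MvPolynomial.eval c Ψ =
      MvPolynomial.eval (fun n => (ψ Δ)⁻¹ * c n + (c0 n - (ψ Δ)⁻¹ * (pr c0).coeff n))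
        (MvPolynomial.map ψ Φ) := by
    intro c
    have h4 := MvPolynomial.comp_aeval_apply (f := fun n =>
      (MvPolynomial.C (ψ Δ)⁻¹ * MvPolynomial.X n +
        MvPolynomial.C (c0 n - (ψ Δ)⁻¹ * (pr c0).coeff n) : MvPolynomial (Fin 3 →₀ ℕ) ℂ))
      (MvPolynomial.aeval (R := ℂ) c) (MvPolynomial.map ψ Φ)
    simp only [map_add, map_mul, MvPolynomial.aeval_C, MvPolynomial.aeval_X, Algebra.algebraMap_self,
      RingHom.id_apply] at h4
    rw [MvPolynomial.aeval_eq_eval, MvPolynomial.aeval_eq_eval] at h4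
    exact h4
  refine ⟨Ψ, ⟨pr c0, mem_sys_iff.2 (hpr c0), ?_⟩, fun F hF hF' => ?_⟩
  · rw [hΨ]
    simpa using hc0
  rw [mem_sys_iff] at hF
  rw [hΨ, MvPolynomial.eval_map] at hF'
  obtain ⟨c, hc⟩ : ∃ c : (Fin 3 →₀ ℕ) → ℂ,
    c = fun n => (ψ Δ)⁻¹ * F.coeff n + (c0 n - (ψ Δ)⁻¹ * (pr c0).coeff n) := ⟨_, rfl⟩
  rw [← hc] at hF'
  let φ : A1 r →+* ℂ := MvPolynomial.eval₂Hom ψ c
  have hφC : ∀ x, φ (MvPolynomial.C x) = ψ x := fun x => MvPolynomial.eval₂Hom_C _ _ _
  have hφF : MvPolynomial.map φ (univF G (d + 1)) = F := by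
    have h4 : φ.comp MvPolynomial.C = ψ := RingHom.ext hφC
    have h5 : ∀ n, φ (MvPolynomial.X n) = c n := fun n => MvPolynomial.eval₂Hom_X' _ _ _
    rw [map_univF, h4]
    simp only [h5]
    show pr c = F
    rw [hc, hlin, hpr' F hF, hpr' _ (hpr c0), hinv, hinv, sub_self, add_zero]
  obtain ⟨h4, h5⟩ := hΦ' φ hF'
  simp only [hφF, hφC, hψX] at h4 h5
  refine ⟨fun q hq hq' _ => ?_, fun i => ⟨?_, ?_⟩⟩
  · by_contra hcon
    push Not at hcon
    have h6 : ∀ i, ∃ j : Fin 2, q (Fin.castSucc j) - P i j * q 2 ≠ 0 := by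
      intro i
      by_contra h7
      push Not at h7
      refine hq' i (q 2) ?_
      have h8 := h7 0
      have h9 := h7 1
      funext j
      fin_cases j
      · simp at h8 ⊢
        linear_combination h8
      · simp at h9 ⊢
        linear_combination h9
      · simp
    choose s hs using h6
    have h7 := h4 q hcon s
    rw [map_prod, map_prod, Finset.prod_eq_zero_iff] at h7
    obtain ⟨i, -, hi⟩ := h7
    apply hs i
    simpa only [lin, map_sub, map_mul, MvPolynomial.map_X, MvPolynomial.map_C, MvPolynomial.eval_X,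
      MvPolynomial.eval_C, hφC, hψX] using hi
  · rw [← rho_T1]
    exact chart_smooth (hF.2 i) (h5 i _ (Or.inl rfl))
  · rw [← rho_T2]
    exact chart_smooth (dvd_T2 (hF.2 i)) (h5 i _ (Or.inr rfl))

end Pool.Agent.H375Z.Sm
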