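import Mathlib
import Pool.Agent.H375Z.Sm.Crit
import Pool.Agent.H932R3.NearFinal

set_option autoImplicit false

/-!
# Final forms: the criterion and uniform multiplicities
-/

namespace Pool.Agent.H375Z.Sm

open Polynomial

variable {r : ℕ}

theorem GeneralPoints.and {p q : (Fin r → Fin 2 → ℂ) → Prop} (hp : GeneralPoints r p)
    (hq : GeneralPoints r q) : GeneralPoints r fun P => p P ∧ q P := by
  obtain ⟨Q1, h1, h1'⟩ := hp
  obtain ⟨Q2, h2, h2'⟩ := hq
  refine ⟨Q1 * Q2, mul_ne_zero h1 h2, fun P hP => ?_⟩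
  rw [map_mul, mul_ne_zero_iff] at hP
  exact ⟨h1' P hP.1, h2' P hP.2⟩

theorem GeneralPoints.mono {p q : (Fin r → Fin 2 → ℂ) → Prop} (hp : GeneralPoints r p)
    (h : ∀ P, p P → q P) : GeneralPoints r q := by
  obtain ⟨Q1, h1, h1'⟩ := hp
  exact ⟨Q1, h1, fun P hP => h P (h1' P hP)⟩

theorem GeneralPoints.exists {p : (Fin r → Fin 2 → ℂ) → Prop} (hp : GeneralPoints r p) :
    ∃ P, p P := by
  obtain ⟨Q1, h1, h1'⟩ := hp
  by_contra h
  push Not at h
  refine h1 (MvPolynomial.funext fun x => ?_)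
  rw [map_zero]
  by_contra h2
  exact h (fun i j => x (i, j)) (h1' _ h2)

theorem generalPoints_injective (r : ℕ) : GeneralPoints r Function.Injective := by
  classical
  refine ⟨∏ ij ∈ Finset.univ.filter (fun ij : Fin r × Fin r => ij.1 ≠ ij.2),
    (MvPolynomial.X (ij.1, 0) - MvPolynomial.X (ij.2, 0)), ?_, fun P hP i j hij => ?_⟩
  · refine Finset.prod_ne_zero_iff.2 fun ij hij h => ?_
    have h1 := MvPolynomial.X_injective (sub_eq_zero.1 h)
    exact (Finset.mem_filter.1 hij).2 (Prod.mk.inj h1).1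
  · by_contra h
    rw [map_prod, Finset.prod_ne_zero_iff] at hP
    apply hP (i, j) (Finset.mem_filter.2 ⟨Finset.mem_univ _, h⟩)
    simp [hij]

/-- The form in which non-speciality is available from the library. -/
def Lib (w : Fin r → ℕ) (d : ℕ) : Prop :=
  ∀ (L : Type) [Field L] [CharZero L], ∃ F : MvPolynomial (Fin r × Fin 2) ℚ, F ≠ 0 ∧
    ∀ P : Fin r → Fin 2 → L, MvPolynomial.aeval (fun ij : Fin r × Fin 2 => P ij.1 ij.2) F ≠ 0 →
      H932R3.ExpDim L w P d

theorem Lib.general {w : Fin r → ℕ} {d : ℕ} (h : Lib w d) : GeneralPoints r fun P =>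
    Module.finrank ℂ (sys P w d) = (d + 2).choose 2 - ∑ i, (w i + 1).choose 2 := by
  obtain ⟨F, hF, hF'⟩ := h ℂ
  refine ⟨F.map (algebraMap ℚ ℂ), H932R3.map_ne_zero_of hF, fun P hP => ?_⟩
  rw [MvPolynomial.eval_map] at hP
  exact hF' P hP

/-- Independence at one configuration implies independence at the generic configuration. -/
theorem surj_generic {w : Fin r → ℕ} {d : ℕ} {P : Fin r → Fin 2 → ℂ}
    (h : Surj (fun i => P i 0) (fun i => P i 1) w d) : Surj (gx r 0) (gx r 1) w d := by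
  classical
  choose H hH hH' using fun e : Ix w => h (Pi.single e 1)
  obtain ⟨H', hH2⟩ : ∃ H' : Ix w → MvPolynomial (Fin 3) (A0 r), ∀ e, H' e =
    MvPolynomial.map (MvPolynomial.C : ℂ →+* A0 r) (H e) := ⟨_, fun _ => rfl⟩
  obtain ⟨M, hM⟩ : ∃ M : Matrix (Ix w) (Ix w) (A0 r), ∀ e' e, M e' e =
      jet (fun i => MvPolynomial.X (i, 0)) (fun i => MvPolynomial.X (i, 1)) w (H' e) e' :=
    ⟨Matrix.of fun e' e =>
      jet (fun i => MvPolynomial.X (i, 0)) (fun i => MvPolynomial.X (i, 1)) w (H' e) e',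
      fun _ _ => rfl⟩
  obtain ⟨ψ, hψ⟩ : ∃ ψ : A0 r →+* ℂ,
    ψ = MvPolynomial.eval (fun ij : Fin r × Fin 2 => P ij.1 ij.2) := ⟨_, rfl⟩
  have h1 : ψ.mapMatrix M = 1 := by
    ext e' e
    rw [RingHom.mapMatrix_apply, Matrix.map_apply, hM, ← jet_map]
    have h2 : MvPolynomial.map ψ (H' e) = H e := by
      rw [hH2, MvPolynomial.map_map]
      have : ψ.comp MvPolynomial.C = RingHom.id ℂ := RingHom.ext fun x => by
        rw [hψ]
        exact MvPolynomial.eval_C _
      rw [this, MvPolynomial.map_id]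
    have h3 : ∀ i j, ψ (MvPolynomial.X (i, j)) = P i j := fun i j => by
      rw [hψ, MvPolynomial.eval_X]
    simp only [h2, h3, hH']
    rw [Pi.single_apply, Matrix.one_apply]
  have h2 : M.det ≠ 0 := by
    intro h0
    have h3 := ψ.map_det M
    rw [h0, h1, map_zero, Matrix.det_one] at h3
    exact zero_ne_one h3
  obtain ⟨κ, hκ⟩ : ∃ κ, κ = algebraMap (A0 r) (FractionRing (A0 r)) := ⟨_, rfl⟩
  have h3 : (κ.mapMatrix M).det ≠ 0 := by
    rw [← κ.map_det, hκ]
    exact (map_ne_zero_iff _ (IsFractionRing.injective _ _)).2 h2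
  have hg : ∀ j, gx r j = fun i => κ (MvPolynomial.X (i, j)) := by
    intro j
    rw [hκ]
    rfl
  intro y
  have h4 : IsUnit (κ.mapMatrix M) := (Matrix.isUnit_iff_isUnit_det _).2 (Ne.isUnit h3)
  obtain ⟨x, hx⟩ := Matrix.mulVec_surjective_iff_isUnit.2 h4 y
  refine ⟨∑ e, x e • MvPolynomial.map κ (H' e), ?_, ?_⟩
  · refine MvPolynomial.IsHomogeneous.sum _ _ _ fun e _ => ?_
    rw [MvPolynomial.smul_eq_C_mul, hH2]
    exact (((hH e).map _).map κ).C_mul _
  · funext e'
    rw [← hx, map_sum, Finset.sum_apply, Matrix.mulVec, dotProduct]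
    refine Finset.sum_congr rfl fun e _ => ?_
    rw [map_smul, Pi.smul_apply, smul_eq_mul, mul_comm, hg, hg, jet_map, RingHom.mapMatrix_apply,
      Matrix.map_apply, hM]

theorem surj_of_finrank {w : Fin r → ℕ} {d : ℕ} {P : Fin r → Fin 2 → ℂ}
    (h : Module.finrank ℂ (sys P w d) + ∑ i, (w i + 1).choose 2 = (d + 2).choose 2) :
    Surj (gx r 0) (gx r 1) w d := by
  refine surj_generic (P := P) (surj_of_expDim ?_ (by omega))
  show Module.finrank ℂ (sys P w d) = _
  omega

theorem Lib.surj {w : Fin r → ℕ} {d : ℕ} (h : Lib w d)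
    (hd : ∑ i, (w i + 1).choose 2 ≤ (d + 2).choose 2) : Surj (gx r 0) (gx r 1) w d := by
  obtain ⟨P, hP⟩ := h.general.exists
  exact surj_of_finrank (P := P) (by omega)

theorem surj_zero {R : Type*} [CommRing R] {a b : Fin r → R} {w : Fin r → ℕ} (hw : ∀ i, w i = 0)
    (d : ℕ) : Surj a b w d := by
  intro y
  refine ⟨0, MvPolynomial.isHomogeneous_zero _ _ _, funext fun e => ?_⟩
  have h1 := e.2.1.2
  have h2 := hw e.1
  omega

theorem Surj.of_up {R : Type*} [CommRing R] {a b : Fin r → R} {w : Fin r → ℕ} {d : ℕ} {i : Fin r}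
    (h : Surj a b (up w i) d) : Surj a b w d := by
  classical
  intro y
  have hle : ∀ j, w j ≤ up w i j := by
    intro j
    unfold up
    split_ifs <;> omega
  obtain ⟨F, hF, hF'⟩ := h fun e =>
    if hk : (e.2.1 : ℕ) < w e.1 then y ⟨e.1, ⟨e.2.1, hk⟩, e.2.2⟩ else 0
  refine ⟨F, hF, funext fun e => ?_⟩
  have h1 := congrFun hF' ⟨e.1, ⟨e.2.1, lt_of_lt_of_le e.2.1.2 (hle _)⟩, e.2.2⟩
  rw [dif_pos e.2.1.2] at h1
  exact h1

theorem two_mul_choose (n : ℕ) : 2 * (n + 1).choose 2 = n * (n + 1) := by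
  induction n with
  | zero => simp
  | succ n ih =>
    rw [Nat.choose_succ_succ' (n + 1) 1, Nat.choose_one_right, mul_add, ih]
    ring

theorem sum_up (w : Fin r → ℕ) (i : Fin r) :
    ∑ j, (up w i j + 1).choose 2 = ∑ j, (w j + 1).choose 2 + (w i + 1) := by
  classical
  have h : ∀ j, (up w i j + 1).choose 2 = (w j + 1).choose 2 + if j = i then w i + 1 else 0 := by
    intro j
    unfold up
    split_ifs with h
    · subst h
      rw [Nat.choose_succ_succ' (w j + 1) 1, Nat.choose_one_right, add_comm]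
    · rfl
  simp only [h, Finset.sum_add_distrib]
  rw [Finset.sum_ite_eq']
  simp

theorem sum_down {w : Fin r → ℕ} {d : ℕ}
    (h : ∑ j, (w j + 1).choose 2 ≤ (d + 1 + 2).choose 2) :
    ∑ j, (w j - 1 + 1).choose 2 ≤ (d + 2).choose 2 := by
  have h1 : ∀ j, (d + 3) * (w j - 1 + 1).choose 2 ≤ (d + 1) * (w j + 1).choose 2 := by
    intro j
    have h2 : (w j + 1).choose 2 ≤ (d + 2 + 1).choose 2 :=
      (Finset.single_le_sum (f := fun j => (w j + 1).choose 2) (fun _ _ => Nat.zero_le _)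
        (Finset.mem_univ j)).trans h
    have h3 := two_mul_choose (w j)
    have h4 := two_mul_choose (d + 2)
    have h5 := two_mul_choose (w j - 1)
    have h6 : w j ≤ d + 2 := by
      by_contra h7
      have : (d + 3) * (d + 4) ≤ w j * (w j + 1) := Nat.mul_le_mul (by omega) (by omega)
      nlinarith
    rcases Nat.eq_zero_or_pos (w j) with h7 | h7
    · simp [h7]
    · obtain ⟨u, hu⟩ : ∃ u, w j = u + 1 := ⟨w j - 1, by omega⟩
      rw [hu] at h3 h5 h6 ⊢
      rw [Nat.add_sub_cancel] at h5 ⊢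
      have h8 : (d + 3) * u ≤ (d + 1) * (u + 2) := by nlinarith
      have h9 := Nat.mul_le_mul_right (u + 1) h8
      nlinarith
  have h2 := Finset.sum_le_sum fun j (_ : j ∈ Finset.univ) => h1 j
  rw [← Finset.mul_sum, ← Finset.mul_sum] at h2
  have h3 := two_mul_choose (d + 2)
  have h4 := two_mul_choose (d + 1)
  have h5 := Nat.mul_le_mul_left (d + 1) h
  have h6 : (d + 1) * (d + 1 + 2).choose 2 = (d + 3) * (d + 2).choose 2 := by
    have e1 : d + 1 + 2 = d + 2 + 1 := by ring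
    have e2 : d + 2 = d + 1 + 1 := by ring
    rw [e1]
    rw [← e2] at h4
    nlinarith
  exact Nat.le_of_mul_le_mul_left (h2.trans (h5.trans h6.le)) (by omega)

theorem criterion_final (hr : 0 < r) (w : Fin r → ℕ) (d : ℕ)
    (h1 : ∀ i, ∃ P, Module.finrank ℂ (sys P (Function.update w i (w i + 1)) (d + 1)) +
      ∑ j, (Function.update w i (w i + 1) j + 1).choose 2 = (d + 1 + 2).choose 2)
    (h2 : ∃ P, Module.finrank ℂ (sys P (fun j => w j - 1) d) +
      ∑ j, (w j - 1 + 1).choose 2 = (d + 2).choose 2) :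
    GeneralPoints r fun P => GeneralMember (sys P w (d + 1)) (SmoothOnBlowup P w) := by
  have hup : ∀ i, Function.update w i (w i + 1) = up w i := by
    intro i
    funext j
    unfold up
    rw [Function.update_apply]
    split_ifs with h
    · rw [h]
    · rfl
  have h3 : ∀ i, Surj (gx r 0) (gx r 1) (up w i) (d + 1) := by
    intro i
    obtain ⟨P, hP⟩ := h1 i
    rw [hup] at hP
    exact surj_of_finrank hP
  obtain ⟨P, hP⟩ := h2
  exact criterion ⟨0, hr⟩ (h3 ⟨0, hr⟩).of_up h3 (surj_of_finrank hP)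

theorem lib_near (hr : 9 < r) {m : ℕ} (hm : 0 < m) {w : Fin r → ℕ}
    (hw : ∀ i, w i = m ∨ w i = m + 1)
    (h : ((m + 1 : ℕ) : ℝ) ≤ r - 6 * Real.sqrt r + 11 ∨
      ∃ δ κ : ℕ, 2 ≤ δ ∧ r = δ ^ 2 + 2 * κ ∧
        (κ = 0 ∨ ∑ i, w i * (w i + 1) < δ ^ 2 * (δ ^ 2 + 3) * (δ ^ 2 + 4))) (d : ℕ) : Lib w d := by
  intro L _ _
  obtain ⟨F, hF, hF'⟩ := H932R3.near_points (L := L) (by omega) hm hw (H932R3.near_cond hr hw h)
  exact ⟨F, hF, fun P hP => hF' P hP d⟩

theorem uniform_final (hr : 9 < r) {m : ℕ} (hm : 0 < m)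
    (h : (m : ℝ) ≤ r - 6 * Real.sqrt r + 10 ∨
      ∃ δ κ : ℕ, 2 ≤ δ ∧ r = δ ^ 2 + 2 * κ ∧
        (κ = 0 ∨ (r * m + 2) * (m + 1) < δ ^ 2 * (δ ^ 2 + 3) * (δ ^ 2 + 4))) (d : ℕ)
    (hd : (d + 2).choose 2 ≤ r * (m + 1).choose 2 ∨
      r * (m + 1).choose 2 + m + 1 ≤ (d + 2).choose 2) :
    GeneralPoints r fun P => Function.Injective P ∧
      Module.finrank ℂ (sys P (fun _ => m) d) = (d + 2).choose 2 - r * (m + 1).choose 2 ∧
      (sys P (fun _ => m) d ≠ ⊥ →
        GeneralMember (sys P (fun _ => m) d) (SmoothOnBlowup P fun _ => m)) := by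
  have hlib : ∀ (μ : ℕ) (w : Fin r → ℕ), 0 < μ → μ ≤ m → (∀ i, w i = μ ∨ w i = μ + 1) →
      ∑ i, w i * (w i + 1) ≤ (r * m + 2) * (m + 1) → ∀ d, Lib w d := by
    intro μ w h0 h1 hw hs d
    refine lib_near hr h0 hw ?_ d
    rcases h with h | ⟨δ, κ, h2, h3, h4⟩
    · left
      have : (μ : ℝ) ≤ m := by exact_mod_cast h1
      push_cast
      linarith
    · right
      exact ⟨δ, κ, h2, h3, h4.imp id fun h5 => lt_of_le_of_lt hs h5⟩
  have hconst : ∀ μ : ℕ, ∑ _i : Fin r, (μ + 1).choose 2 = r * (μ + 1).choose 2 := by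
    intro μ
    rw [Finset.sum_const, Finset.card_univ, Fintype.card_fin, smul_eq_mul]
  have hconst' : ∀ μ ≤ m, ∑ _i : Fin r, μ * (μ + 1) ≤ (r * m + 2) * (m + 1) := by
    intro μ hμ
    rw [Finset.sum_const, Finset.card_univ, Fintype.card_fin, smul_eq_mul, ← mul_assoc]
    exact Nat.mul_le_mul ((Nat.mul_le_mul_left _ hμ).trans (by omega)) (by omega)
  have h0 := (hlib m (fun _ => m) hm le_rfl (fun _ => Or.inl rfl) (hconst' m le_rfl) d).general
  simp only [hconst] at h0
  rcases hd with hd | hd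
  · refine ((generalPoints_injective r).and h0).mono fun P hP => ⟨hP.1, hP.2, fun h1 => ?_⟩
    exfalso
    apply h1
    have : Module.Finite ℂ (sys P (fun _ => m) d) :=
      Submodule.finiteDimensional_of_le (S₂ := MvPolynomial.homogeneousSubmodule (Fin 3) ℂ d)
        inf_le_left
    rw [← Submodule.finrank_eq_zero, hP.2]
    omega
  · obtain ⟨e, rfl⟩ : ∃ e, d = e + 1 := by
      rcases d with _ | e
      · simp at hd
        omega
      · exact ⟨e, rfl⟩
    have h1 : ∀ i, Surj (gx r 0) (gx r 1) (up (fun _ => m) i) (e + 1) := by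
      intro i
      refine (hlib m _ hm le_rfl (fun j => ?_) ?_ _).surj ?_
      · unfold up
        split_ifs <;> simp
      · have h2 := sum_up (fun _ : Fin r => m) i
        have h3 : ∑ j, up (fun _ : Fin r => m) i j * (up (fun _ : Fin r => m) i j + 1) =
            2 * ∑ j, (up (fun _ : Fin r => m) i j + 1).choose 2 := by
          rw [Finset.mul_sum]
          exact Finset.sum_congr rfl fun j _ => (two_mul_choose _).symm
        rw [h3, h2, hconst, mul_add, mul_left_comm, two_mul_choose]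
        exact le_of_eq (by ring)
      · rw [sum_up, hconst]
        omega
    have h2 : Surj (gx r 0) (gx r 1) (fun i => (fun _ : Fin r => m) i - 1) e := by
      rcases Nat.lt_or_ge 1 m with h3 | h3
      · refine (hlib (m - 1) _ (by omega) (by omega) (fun _ => Or.inl rfl)
          (hconst' _ (by omega)) _).surj (sum_down (w := fun _ => m) ?_)
        rw [hconst]
        omega
      · exact surj_zero (fun _ => by show m - 1 = 0; omega) _
    have h3 := criterion ⟨0, by omega⟩ (h1 ⟨0, by omega⟩).of_up h1 h2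
    exact (((generalPoints_injective r).and h0).and h3).mono fun P hP =>
      ⟨hP.1.1, hP.1.2, fun _ => hP.2⟩

end Pool.Agent.H375Z.Sm
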