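import Mathlib
import Pool.Agent.H375Z.Sm.Final
import Pool.Agent.H932R7.Final2

set_option autoImplicit false

/-!
# Arbitrary bounded multiplicities
-/

namespace Pool.Agent.H375Z.Sm

variable {r : ℕ}

theorem lib_bounded {k : ℕ} (hk : 0 < k) {w : Fin r → ℕ} (hw : ∀ i, w i ≤ k) {d : ℕ}
    (h1 : (k : ℝ) * (k + 1) * (k + 6 * Real.sqrt k + 10) ≤ (((d + 1) * (d + 2) : ℕ) : ℝ))
    (h2 : ∑ i ∈ Finset.univ.filter (fun i => w i ≠ 1), (w i + 1).choose 2
      + 2 * (k + 1).choose 3 ≤ (d + 2).choose 2) : Lib w d := by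
  intro L _ _
  obtain ⟨F, hF, hF'⟩ := H932R7.bounded2 L hk le_rfl hw (fun i hi => absurd (hw i) (by omega))
  refine ⟨F, hF, fun P hP => hF' P hP d ⟨h1.trans ?_, Or.inr (Or.inl h2)⟩⟩
  exact_mod_cast le_max_left _ _

theorem three_mul_choose (n : ℕ) : 6 * (n + 2).choose 3 = n * (n + 1) * (n + 2) := by
  induction n with
  | zero => simp
  | succ n ih =>
    have h := two_mul_choose (n + 1)
    rw [show n + 1 + 2 = n + 2 + 1 by ring, Nat.choose_succ_succ' (n + 2) 2, mul_add, ih]
    rw [show n + 1 + 1 = n + 2 by ring] at h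
    nlinarith

theorem bounded_final (hr : 0 < r) {μ : ℕ} (hμ : 2 ≤ μ) {w : Fin r → ℕ} (hw : ∀ i, w i ≤ μ) {d : ℕ}
    (h1 : ((μ : ℝ) + 1) * (μ + 2) * (μ + 6 * Real.sqrt (μ + 1) + 11) ≤ d * (d + 1))
    (h2 : ∑ i ∈ Finset.univ.filter (fun i => w i ≠ 1), (w i + 1).choose 2
      + 2 * (μ + 2).choose 3 + (μ + 1) ≤ (d + 2).choose 2)
    (h3 : ∑ i, (w i + 1).choose 2 + (μ + 1) ≤ (d + 2).choose 2) :
    GeneralPoints r fun P => Function.Injective P ∧
      Module.finrank ℂ (sys P w d) = (d + 2).choose 2 - ∑ i, (w i + 1).choose 2 ∧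
      GeneralMember (sys P w d) (SmoothOnBlowup P w) := by
  classical
  have hs : 0 ≤ Real.sqrt ((μ : ℝ) + 1) := Real.sqrt_nonneg _
  have hμ0 : (0 : ℝ) ≤ μ := Nat.cast_nonneg μ
  have h4 : (μ + 1) * (μ + 2) * (μ + 11) ≤ d * (d + 1) := by
    have : ((μ : ℝ) + 1) * (μ + 2) * (μ + 11) ≤ d * (d + 1) := by
      refine le_trans ?_ h1
      have : (0 : ℝ) ≤ ((μ : ℝ) + 1) * (μ + 2) := by positivity
      nlinarith
    exact_mod_cast this
  obtain ⟨e, rfl⟩ : ∃ e, d = e + 1 := by
    rcases d with _ | e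
    · simp at h4
    · exact ⟨e, rfl⟩
  have hk1 : (((μ + 1 : ℕ) : ℝ)) * (((μ + 1 : ℕ) : ℝ) + 1) *
      (((μ + 1 : ℕ) : ℝ) + 6 * Real.sqrt ((μ + 1 : ℕ) : ℝ) + 10) ≤
        (((e + 1) * (e + 2) : ℕ) : ℝ) := by
    push_cast at h1 ⊢
    refine le_trans (le_of_eq (by ring)) (h1.trans (le_of_eq (by ring)))
  have hk2 : (((μ + 1 : ℕ) : ℝ)) * (((μ + 1 : ℕ) : ℝ) + 1) *
      (((μ + 1 : ℕ) : ℝ) + 6 * Real.sqrt ((μ + 1 : ℕ) : ℝ) + 10) ≤
        (((e + 1 + 1) * (e + 1 + 2) : ℕ) : ℝ) := by
    refine hk1.trans ?_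
    exact_mod_cast Nat.mul_le_mul (by omega) (by omega)
  have h0 : Lib w (e + 1) := lib_bounded (k := μ + 1) (by omega) (fun i => (hw i).trans (by omega))
    hk2 (by rw [show μ + 1 + 1 = μ + 2 by ring]; omega)
  have hS : ∀ i, Surj (gx r 0) (gx r 1) (up w i) (e + 1) := by
    intro i
    refine (lib_bounded (k := μ + 1) (by omega) (fun j => ?_) hk2 ?_).surj ?_
    · have := hw j
      unfold up
      split_ifs <;> omega
    · rw [show μ + 1 + 1 = μ + 2 by ring]
      refine le_trans ?_ h2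
      rw [add_assoc, add_comm (2 * _), ← add_assoc, Finset.sum_filter, Finset.sum_filter]
      refine Nat.add_le_add_right ?_ _
      have h5 : ∀ j, (if up w i j ≠ 1 then (up w i j + 1).choose 2 else 0) ≤
          (if w j ≠ 1 then (w j + 1).choose 2 else 0) + if j = i then μ + 1 else 0 := by
        intro j
        unfold up
        by_cases hj : j = i
        · simp only [if_pos hj]
          have h6 := hw j
          have h7 : (w j + 1 + 1).choose 2 = (w j + 1).choose 2 + (w j + 1) := by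
            rw [Nat.choose_succ_succ' (w j + 1) 1, Nat.choose_one_right, add_comm]
          by_cases h8 : w j = 1
          · rw [h8]
            simp
            omega
          · rw [if_pos h8]
            split_ifs <;> omega
        · simp only [if_neg hj, add_zero, le_refl]
      refine (Finset.sum_le_sum fun j _ => h5 j).trans ?_
      rw [Finset.sum_add_distrib, Finset.sum_ite_eq']
      simp
    · rw [sum_up]
      have := hw i
      omega
  have hS' : Surj (gx r 0) (gx r 1) (fun i => w i - 1) e := by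
    refine (lib_bounded (k := μ + 1) (by omega) (fun j => ?_) hk1 ?_).surj
      (sum_down (by omega))
    · have := hw j
      omega
    · rw [show μ + 1 + 1 = μ + 2 by ring]
      obtain ⟨A, hA⟩ : ∃ A, A = ∑ i ∈ Finset.univ.filter (fun i => w i ≠ 1),
        (w i + 1).choose 2 := ⟨_, rfl⟩
      obtain ⟨B, hB⟩ : ∃ B, B = ∑ i ∈ Finset.univ.filter (fun i => w i - 1 ≠ 1),
        (w i - 1 + 1).choose 2 := ⟨_, rfl⟩
      obtain ⟨ν, rfl⟩ : ∃ ν, μ = ν + 1 := ⟨μ - 1, by omega⟩
      have h5 : (ν + 2) * B ≤ ν * A := by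
        rw [hA, hB, Finset.sum_filter, Finset.sum_filter, Finset.mul_sum, Finset.mul_sum]
        refine Finset.sum_le_sum fun j _ => ?_
        have h6 := hw j
        rcases Nat.lt_or_ge (w j) 2 with h7 | h7
        · have h8 : w j - 1 = 0 := by omega
          simp [h8]
        · obtain ⟨u, hu⟩ : ∃ u, w j = u + 1 := ⟨w j - 1, by omega⟩
          rw [if_pos (show w j ≠ 1 by omega), hu, Nat.add_sub_cancel]
          have h8 := two_mul_choose u
          have h9 := two_mul_choose (u + 1)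
          have h10 : (ν + 2) * u ≤ ν * (u + 2) := by nlinarith
          have h11 := Nat.mul_le_mul_right (u + 1) h10
          split_ifs
          · nlinarith
          · simp
      rw [← hA] at h2
      rw [← hB]
      have h6 := two_mul_choose (e + 1)
      have h7 := two_mul_choose (e + 2)
      have h8 := three_mul_choose (ν + 1)
      rw [show e + 1 + 1 = e + 2 by ring] at h6
      rw [show e + 2 + 1 = e + 1 + 2 by ring] at h7
      generalize (ν + 1 + 2).choose 3 = W at *
      generalize (e + 2).choose 2 = U at *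
      generalize (e + 1 + 2).choose 2 = V at *
      have h9 : 3 * ν ≤ e + 1 := by
        by_contra h10
        have : (e + 1) * (e + 1 + 1) ≤ (3 * ν) * (3 * ν) := Nat.mul_le_mul (by omega) (by omega)
        nlinarith
      have h10 : ν * V + 4 * W ≤ (ν + 2) * U := by
        have h11 : 3 * ν * (e + 2) ≤ (e + 1) * (e + 2) := Nat.mul_le_mul_right _ h9
        have h12 : (ν + 1) * (ν + 1 + 1) * (ν + 1 + 2) ≤ (e + 1) * (e + 2) := by nlinarith
        have h13 : V = U + (e + 2) := by nlinarith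
        rw [h13]
        nlinarith
      have h11 : ν * (A + 2 * W) ≤ ν * V := Nat.mul_le_mul_left _ (by omega)
      refine Nat.le_of_mul_le_mul_left (c := ν + 2) ?_ (by omega)
      nlinarith
  exact (((generalPoints_injective r).and h0.general).and
    (criterion ⟨0, hr⟩ (hS ⟨0, hr⟩).of_up hS hS')).mono fun P hP => ⟨hP.1.1, hP.1.2, hP.2⟩

end Pool.Agent.H375Z.Sm
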