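import Mathlib
import Pool.Agent.H375Z.Sm.Final

set_option autoImplicit false

/-!
# The criterion together with non-speciality
-/

namespace Pool.Agent.H375Z.Sm

variable {r : ℕ}

theorem finrank_forms_eq (d : ℕ) :
    Module.finrank ℂ (MvPolynomial.homogeneousSubmodule (Fin 3) ℂ d) = (d + 2).choose 2 := by
  classical
  refine le_antisymm ?_ (le_finrank_forms d)
  have hs : (mons d).card = (d + 2).choose 2 := by
    rw [mons, Finset.card_finsuppAntidiag_nat_eq_choose, Finset.card_univ, Fintype.card_fin,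
      show 3 + d - 1 = d + 2 by omega, Nat.choose_symm_add]
  have h1 : MvPolynomial.homogeneousSubmodule (Fin 3) ℂ d ≤ Submodule.span ℂ
      (((mons d).image fun n => MvPolynomial.monomial n (1 : ℂ) : Finset _) :
        Set (MvPolynomial (Fin 3) ℂ)) := by
    intro F hF
    rw [← sum_mons (show F.IsHomogeneous d from hF)]
    refine Submodule.sum_mem _ fun n hn => Submodule.smul_mem _ _ (Submodule.subset_span ?_)
    exact Finset.mem_coe.2 (Finset.mem_image_of_mem _ hn)
  refine (Submodule.finrank_mono h1).trans ((finrank_span_finset_le_card _).trans ?_)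
  rw [← hs]
  exact Finset.card_image_le

theorem finrank_of_surj {w : Fin r → ℕ} {d : ℕ} {P : Fin r → Fin 2 → ℂ}
    (h : Surj (fun i => P i 0) (fun i => P i 1) w d) :
    Module.finrank ℂ (sys P w d) + ∑ i, (w i + 1).choose 2 = (d + 2).choose 2 := by
  let V := MvPolynomial.homogeneousSubmodule (Fin 3) ℂ d
  let f : V →ₗ[ℂ] (Ix w → ℂ) := (jet (fun i => P i 0) (fun i => P i 1) w).comp V.subtype
  have h1 := LinearMap.finrank_range_add_finrank_ker f
  have he : Submodule.map V.subtype (LinearMap.ker f) = sys P w d := by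
    ext F
    rw [Submodule.mem_map, mem_sys_iff]
    constructor
    · rintro ⟨G, hG, rfl⟩
      rw [LinearMap.mem_ker] at hG
      have hG' : jet (fun i => P i 0) (fun i => P i 1) w G.1 = 0 := hG
      exact ⟨G.2, jet_eq_zero_iff.1 hG'⟩
    · intro h3
      have h5 : jet (fun i => P i 0) (fun i => P i 1) w F = 0 := jet_eq_zero_iff.2 h3.2
      exact ⟨⟨F, h3.1⟩, LinearMap.mem_ker.2 h5, rfl⟩
  have h2 : LinearMap.range f = ⊤ := by
    rw [LinearMap.range_eq_top]
    intro y
    obtain ⟨F, hF, hF'⟩ := h y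
    exact ⟨⟨F, hF⟩, hF'⟩
  rw [h2, finrank_top, Module.finrank_fintype_fun_eq_card, card_Ix,
    ← Submodule.finrank_map_subtype_eq, he] at h1
  rw [add_comm, h1]
  exact finrank_forms_eq d

theorem general_of_surj {w : Fin r → ℕ} {d : ℕ} (h : Surj (gx r 0) (gx r 1) w d) :
    GeneralPoints r fun P =>
      Module.finrank ℂ (sys P w d) + ∑ i, (w i + 1).choose 2 = (d + 2).choose 2 := by
  classical
  let _ : Algebra (MvPolynomial (Fin 3) (A0 r)) (MvPolynomial (Fin 3) (FractionRing (A0 r))) :=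
    MvPolynomial.algebraMvPolynomial
  have hloc := MvPolynomial.isLocalization (σ := Fin 3) (nonZeroDivisors (A0 r))
    (FractionRing (A0 r))
  have hinj := IsFractionRing.injective (A0 r) (FractionRing (A0 r))
  choose H hH hH' using fun e : Ix w => h (Pi.single e 1)
  obtain ⟨s, hs⟩ := IsLocalization.exist_integer_multiples_of_finite
    ((nonZeroDivisors (A0 r)).map (MvPolynomial.C (σ := Fin 3))) H
  obtain ⟨Δ, hΔ, hΔs⟩ := s.2
  have hΔs' : MvPolynomial.C Δ = s.1 := hΔs
  choose H' hH'' using hs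
  have h1 : ∀ e, MvPolynomial.map (algebraMap (A0 r) (FractionRing (A0 r))) (H' e) =
      algebraMap (A0 r) (FractionRing (A0 r)) Δ • H e := by
    intro e
    have h2 := hH'' e
    rw [← hΔs', Algebra.smul_def, MvPolynomial.algebraMap_def, MvPolynomial.map_C] at h2
    rw [MvPolynomial.smul_eq_C_mul]
    exact h2
  have h2 : ∀ e, (H' e).IsHomogeneous d := by
    intro e
    refine MvPolynomial.IsHomogeneous.of_map hinj ?_
    rw [h1, MvPolynomial.smul_eq_C_mul]
    exact (hH e).C_mul _
  have h3 : ∀ e e', jet (fun i => MvPolynomial.X (i, 0)) (fun i => MvPolynomial.X (i, 1)) w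
      (H' e) e' = if e' = e then Δ else 0 := by
    intro e e'
    apply hinj
    rw [← jet_map, h1, map_smul]
    have h4 : jet (fun i => algebraMap (A0 r) (FractionRing (A0 r)) (MvPolynomial.X (i, 0)))
        (fun i => algebraMap (A0 r) (FractionRing (A0 r)) (MvPolynomial.X (i, 1))) w (H e) =
        Pi.single e 1 := hH' e
    rw [h4, Pi.smul_apply, Pi.single_apply]
    split_ifs <;> simp
  refine ⟨Δ, nonZeroDivisors.ne_zero hΔ, fun P hP => finrank_of_surj fun y => ?_⟩
  obtain ⟨ψ, hψ⟩ : ∃ ψ : A0 r →+* ℂ,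
    ψ = MvPolynomial.eval (fun ij : Fin r × Fin 2 => P ij.1 ij.2) := ⟨_, rfl⟩
  have hψX : ∀ j, (fun i => P i j) = fun i => ψ (MvPolynomial.X (i, j)) := by
    intro j
    funext i
    rw [hψ, MvPolynomial.eval_X]
  rw [← hψ] at hP
  refine ⟨∑ e, (y e / ψ Δ) • MvPolynomial.map ψ (H' e), ?_, ?_⟩
  · refine MvPolynomial.IsHomogeneous.sum _ _ _ fun e _ => ?_
    rw [MvPolynomial.smul_eq_C_mul]
    exact ((h2 e).map ψ).C_mul _
  · funext e'
    rw [map_sum, Finset.sum_apply, hψX 0, hψX 1]
    simp only [map_smul, Pi.smul_apply, jet_map, h3, smul_eq_mul]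
    rw [Finset.sum_eq_single e']
    · rw [if_pos rfl, div_mul_cancel₀ _ hP]
    · intro e _ he
      rw [if_neg (Ne.symm he), map_zero, mul_zero]
    · simp

theorem criterion_full (hr : 0 < r) (w : Fin r → ℕ) (d : ℕ)
    (h1 : ∀ i, ∃ P, Module.finrank ℂ (sys P (Function.update w i (w i + 1)) (d + 1)) +
      ∑ j, (Function.update w i (w i + 1) j + 1).choose 2 = (d + 1 + 2).choose 2)
    (h2 : ∃ P, Module.finrank ℂ (sys P (fun j => w j - 1) d) +
      ∑ j, (w j - 1 + 1).choose 2 = (d + 2).choose 2) :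
    GeneralPoints r fun P => Function.Injective P ∧
      Module.finrank ℂ (sys P w (d + 1)) + ∑ j, (w j + 1).choose 2 = (d + 1 + 2).choose 2 ∧
      GeneralMember (sys P w (d + 1)) (SmoothOnBlowup P w) := by
  have hup : Function.update w ⟨0, hr⟩ (w ⟨0, hr⟩ + 1) = up w ⟨0, hr⟩ := by
    funext j
    unfold up
    rw [Function.update_apply]
    split_ifs with h
    · rw [h]
    · rfl
  obtain ⟨P, hP⟩ := h1 ⟨0, hr⟩
  rw [hup] at hP
  exact (((generalPoints_injective r).and (general_of_surj (surj_of_finrank hP).of_up)).and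
    (criterion_final hr w d h1 h2)).mono fun P hP => ⟨hP.1.1, hP.1.2, hP.2⟩

end Pool.Agent.H375Z.Sm
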